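import Pool.Agent.H19E.LimE
import Pool.Agent.H4.LU.LimMod
import Pool.Agent.H17L.MainL
import Pool.Agent.H17V.MainV

/-!
# H19E BaseE: open surfaces over an elliptic curve
-/

set_option autoImplicit false

open Topology Filter MvPolynomial Metric

noncomputable section

namespace Pool.Agent.H19E

open Pool.Agent.H17 (PN VanishesAt HolomorphicInto ZariskiClosedIn)
open Pool.Agent.H62.FC (Homog)
open Pool.Agent.H62.SA (locVar OnBd locCone)
open Pool.Agent.H62.EF (Lat)
open Pool.Agent.H13.SM (cone conTan)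
open Pool.Agent.H13.OT (OrderTwo)
open Pool.Agent.H17BP (Surface)
open Pool.Agent.H17LG.Variety (FunField IsLogGeneralType)
open Pool.Agent.H36.BP (EN)
open Pool.Agent.H36.LB (ConvPN IsLimitPN LimModPN IsCurveComplement openPart_of_curveComplement)
open Pool.Agent.H17EF (projVar IsHolomorphicMap coneE uE LE lat_of_basis)
open Pool.Agent.H17N (NowhereConstant)
open Pool.Agent.H17L (HasLogForms curve_start lsec_finite)

variable {N s : ℕ}

theorem IsLimitPN.mono {U V : Set (PN N)} (hUV : U ⊆ V) {l : Filter ℕ} {F : ℕ → ℂ → PN N} {f : ℂ → PN N} (h : IsLimitPN U l F f) :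
    IsLimitPN V l F f where
  neBot := h.neBot
  le_atTop := h.le_atTop
  hol := h.hol
  zero_mem := hUV h.zero_mem
  holF := h.holF
  memF := fun n z hz => hUV (h.memF n z hz)
  zero := h.zero
  conv := h.conv
  mem_of_conv := fun z hz => hUV (h.mem_of_conv z hz)

variable {P : Ideal (MvPolynomial (Fin (N + 1)) ℂ)} [P.IsPrime] {z : Fin 2 → FunField P} {G : Fin s → MvPolynomial (Fin (N + 1)) ℂ}
  {e : Fin s → ℕ} {D : Set (PN N)} {w w' : Fin 2 → ℂ} {u : PN N → ℂ ⧸ AddSubgroup.closure (Set.range w)}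

/-- the limits of order two of discs in `U` lie in a proper closed subset -/
theorem limMod_base (hP : Homog P) (hz : IsTranscendenceBasis ℂ z)
    (hsm : ∀ y : Fin (N + 1) → ℂ, y ≠ 0 → (∀ Q ∈ P, eval y Q = 0) → Module.finrank ℂ (conTan P y) ≤ 3)
    (hG : ∀ m, (G m).IsHomogeneous (e m)) (hC : IsCurveComplement P G)
    (hgt : IsLogGeneralType (K := FunField P) (k := 2) (OnBd P G))
    (hw : LinearIndependent ℝ w) (hw' : LinearIndependent ℝ w') (hle : ∀ i, w' i ∈ AddSubgroup.closure (Set.range w))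
    (hu : IsHolomorphicMap (projVar P) (AddSubgroup.closure (Set.range w)) u) (hnon : NowhereConstant (projVar P) u)
    (hD : ZariskiClosedIn (projVar P) D) (hdis : ∀ x ∈ D, x ∉ locVar P G) (hDn : NowhereConstant D u)
    (hver : (u '' (projVar P \ (locVar P G ∪ D))).Finite)
    (hform : HasLogForms (projVar P) D (AddSubgroup.closure (Set.range w)) (AddSubgroup.closure (Set.range w')) u) :
    ∃ (R : MvPolynomial (Fin (N + 1)) ℂ) (n : ℕ), R.IsHomogeneous n ∧ R ∉ P ∧
      LimModPN (locVar P G) {x | x ∈ locVar P G ∧ VanishesAt R x} := by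
  have hS : Surface (cone P) := Pool.Agent.H13.SM.surface_cone hP hz fun y hy => hsm y hy.1 hy.2
  have hΛ := lat_of_basis hw
  have hΓ := lat_of_basis hw'
  have hle' : AddSubgroup.closure (Set.range w') ≤ AddSubgroup.closure (Set.range w) := by
    rw [AddSubgroup.closure_le]
    rintro _ ⟨i, rfl⟩
    exact hle i
  obtain ⟨B₀, hB₀, hf⟩ := Pool.Agent.H17V.fib_of_logGT hP hz hsm hG hC hgt hΛ hu
  have hB := hB₀.union hver
  have hfib : ∀ f : ℂ → PN N, HolomorphicInto f Set.univ → (∀ z, f z ∈ projVar P \ D) → (∀ z w, u (f z) = u (f w)) →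
      u (f 0) ∉ B₀ ∪ u '' (projVar P \ (locVar P G ∪ D)) → ∀ z w, f z = f w := by
    intro f hf1 hf2 hc hne
    refine hf f hf1 (fun x => ?_) hc fun h => hne (Or.inl h)
    by_contra hx
    exact hne (Or.inr ⟨f x, ⟨(hf2 x).1, fun h => h.elim hx (hf2 x).2⟩, hc x 0⟩)
  have hfin := lsec_finite hP hz hsm hΛ hΓ hle' hu hnon hD hDn hB hfib hform
  obtain ⟨c, Ω, hΩ, hlog, hnz, hvan⟩ := hform.nonempty
  have hcur := curve_start hP hS hΛ hu hD hDn hlog
  obtain ⟨R, n, hR, hRP, hlim⟩ := limit_form hP hz hsm hw hu hnon hcur hB hfib hfin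
  refine ⟨R, n, hR, hRP, ?_⟩
  intro l F f hfl hord hne z hz
  refine ⟨hz, ?_⟩
  have hsub : locVar P G ⊆ projVar P \ D := fun x hx => ⟨hx.1, fun h => hdis x h hx⟩
  exact hlim l F f (IsLimitPN.mono hsub hfl) hord hne z

/-- **The base theorem.** -/
theorem ggl_base (hP : Homog P) (hz : IsTranscendenceBasis ℂ z) (hne : (locVar P G).Nonempty)
    (hsm : ∀ y : Fin (N + 1) → ℂ, y ≠ 0 → (∀ Q ∈ P, eval y Q = 0) → Module.finrank ℂ (conTan P y) ≤ 3)
    (hG : ∀ m, (G m).IsHomogeneous (e m)) (hC : IsCurveComplement P G)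
    (hgt : IsLogGeneralType (K := FunField P) (k := 2) (OnBd P G))
    (hw : LinearIndependent ℝ w) (hw' : LinearIndependent ℝ w') (hle : ∀ i, w' i ∈ AddSubgroup.closure (Set.range w))
    (hu : IsHolomorphicMap (projVar P) (AddSubgroup.closure (Set.range w)) u) (hnon : NowhereConstant (projVar P) u)
    (hD : ZariskiClosedIn (projVar P) D) (hdis : ∀ x ∈ D, x ∉ locVar P G) (hDn : NowhereConstant D u)
    (hver : (u '' (projVar P \ (locVar P G ∪ D))).Finite)
    (hform : HasLogForms (projVar P) D (AddSubgroup.closure (Set.range w)) (AddSubgroup.closure (Set.range w')) u) :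
    ∃ Ξ : Set (PN N), Pool.Agent.H7.Bir.GGLOpen P G Ξ ∧ ∃ (Q : MvPolynomial (Fin (N + 1)) ℂ) (D : ℕ), Q.IsHomogeneous D ∧
      (∃ x ∈ locVar P G, ¬ VanishesAt Q x) ∧ (∀ x, x ∈ Ξ ↔ x ∈ locVar P G ∧ VanishesAt Q x) ∧
      Pool.Agent.H14.KB.KobayashiHyperbolicModulo (locVar P G) Q D := by
  obtain ⟨R, n, hR, hRP, hlim⟩ := limMod_base hP hz hsm hG hC hgt hw hw' hle hu hnon hD hdis hDn hver hform
  exact Pool.Agent.H4.LU.ggl_of_limMod hP hz hsm (fun m => ⟨e m, hG m⟩) hne hC hgt hR hRP hlim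

end Pool.Agent.H19E
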