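import Pool.Agent.H18.LU.Lc
import Pool.Agent.H36.LB.PNDefs
import Pool.Agent.H36.BP.Lift
import Pool.Agent.H17EF.MainE

/-!
# H19E LimA: limits of discs in `ℙ^N` and limit curves in the cone
-/

set_option autoImplicit false

open Topology Filter MvPolynomial Metric

noncomputable section

namespace Pool.Agent.H19E

open Pool.Agent.H17 (PN VanishesAt HolomorphicInto ZariskiClosedIn)
open Pool.Agent.H62.FC (Homog)
open Pool.Agent.H62.EF (MN pr Lat TorusMap Sec pr_smul pr_eq_iff continuousAt_pr)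
open Pool.Agent.H13.SM (cone)
open Pool.Agent.H36.BP (EN fs wd)
open Pool.Agent.H17EF (projVar IsHolomorphicMap coneE uE LE prP prP_mk mk_symm prP_injective LE_ne_zero mem_coneE mk_mem_projVar exists_lift)
open Pool.Agent.H36.LB (ConvPN IsLimitPN)
open Pool.Agent.H18.LU (LCur)

variable {N : ℕ}

/-- a lift over a disc -/
theorem lift_big {f : ℂ → PN N} {r ρ : ℝ} (hr : 0 < r) (hρ : r < ρ) (hf : HolomorphicInto f (ball 0 ρ)) :
    ∃ F : ℂ → EN N, DifferentiableOn ℂ F (ball 0 r) ∧ ∀ z ∈ ball (0 : ℂ) r, ∃ h : (LE N).symm (F z) ≠ 0, f z = Projectivization.mk ℂ ((LE N).symm (F z)) h := by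
  have hρ0 : 0 < ρ := hr.trans hρ
  have hρc : (ρ : ℂ) ≠ 0 := by exact_mod_cast hρ0.ne'
  have hg : HolomorphicInto (fun z => f ((ρ : ℂ) * z)) (ball 0 1) := by
    intro z hz
    have h1 : (ρ : ℂ) * z ∈ ball (0 : ℂ) ρ := by
      rw [mem_ball_zero_iff] at hz ⊢
      rw [norm_mul, Complex.norm_real, Real.norm_of_nonneg hρ0.le]
      nlinarith
    obtain ⟨φ, hφ, hφ'⟩ := hf _ h1
    have h2 : AnalyticAt ℂ (fun z : ℂ => (ρ : ℂ) * z) z := analyticAt_const.mul analyticAt_id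
    exact ⟨fun z => φ ((ρ : ℂ) * z), AnalyticAt.fun_comp (g := φ) (f := fun z : ℂ => (ρ : ℂ) * z) hφ h2, h2.continuousAt.tendsto.eventually hφ'⟩
  obtain ⟨F, hF, hFf⟩ := Pool.Agent.H36.BP.lift_disc hg (r := r / ρ) (by positivity) ((div_lt_one hρ0).2 hρ)
  have hmap : ∀ z ∈ ball (0 : ℂ) r, z / (ρ : ℂ) ∈ ball (0 : ℂ) (r / ρ) := by
    intro z hz
    rw [mem_ball_zero_iff] at hz ⊢
    rw [norm_div, Complex.norm_real, Real.norm_of_nonneg hρ0.le]
    exact (div_lt_div_iff_of_pos_right hρ0).2 hz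
  refine ⟨fun z => F (z / (ρ : ℂ)), hF.comp (differentiable_id.div_const _).differentiableOn hmap, fun z hz => ?_⟩
  obtain ⟨h, h'⟩ := hFf _ (hmap z hz)
  have h2 : (ρ : ℂ) * (z / (ρ : ℂ)) = z := by field_simp
  have h3 : f z = f ((ρ : ℂ) * (z / (ρ : ℂ))) := by rw [h2]
  exact ⟨h, h3.trans h'⟩

theorem convPN_open {l : Filter ℕ} {F : ℕ → ℂ → PN N} {f : ℂ → PN N} : IsOpen {z | ConvPN l F f z} := by
  rw [Metric.isOpen_iff]
  rintro z ⟨s, Φ, Φ₀, hs, hΦ, hΦ₀, hf, hlim⟩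
  refine ⟨s, hs, fun w hw => ?_⟩
  obtain ⟨t, ht, htb⟩ := Metric.mem_nhds_iff.1 (isOpen_ball.mem_nhds hw)
  refine ⟨t, Φ, Φ₀, ht, ?_, hΦ₀.mono htb, fun y hy => hf y (htb hy), hlim.mono htb⟩
  filter_upwards [hΦ] with n hn
  exact ⟨hn.1.mono htb, fun y hy => hn.2 y (htb hy)⟩

/-- the convergence of the projections -/
theorem convPN_unif {l : Filter ℕ} {F : ℕ → ℂ → PN N} {f : ℂ → PN N} :
    TendstoLocallyUniformlyOn (fun n z => prP (F n z)) (fun z => prP (f z)) l {z | ConvPN l F f z} := by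
  rw [Metric.tendstoLocallyUniformlyOn_iff]
  intro ε hε z₀ hz₀
  obtain ⟨s, Φ, Φ₀, hs, hΦ, hΦ₀, hf, hlim⟩ := hz₀
  have hz₀s : z₀ ∈ ball z₀ s := mem_ball_self hs
  have hx0 : (LE N) (Φ₀ z₀) ≠ 0 := LE_ne_zero (hf z₀ hz₀s).1
  have hc : ContinuousAt (fun x : Fin (N + 1) → ℂ => pr ((LE N) x)) (Φ₀ z₀) :=
    (continuousAt_pr hx0).comp (LE N).continuous.continuousAt
  obtain ⟨η, hη, hpr⟩ := Metric.continuousAt_iff.1 hc (ε / 2) (by positivity)
  have hHc : ∀ᶠ z in 𝓝 z₀, dist (Φ₀ z) (Φ₀ z₀) < η / 2 :=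
    Metric.tendsto_nhds.1 (hΦ₀.continuousOn.continuousAt (isOpen_ball.mem_nhds hz₀s)) _ (by positivity)
  obtain ⟨t, ht, hev⟩ := (Metric.tendstoLocallyUniformlyOn_iff.1 hlim) (η / 2) (by positivity) z₀ hz₀s
  rw [isOpen_ball.nhdsWithin_eq hz₀s] at ht
  refine ⟨t ∩ ({z | dist (Φ₀ z) (Φ₀ z₀) < η / 2} ∩ ball z₀ s), mem_nhdsWithin_of_mem_nhds
    (inter_mem ht (inter_mem hHc (ball_mem_nhds z₀ hs))), ?_⟩
  filter_upwards [hev, hΦ] with n hn hφn
  rintro w ⟨hwt, hw1, hw2⟩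
  have hw1' : dist (Φ₀ w) (Φ₀ z₀) < η / 2 := hw1
  have h1 : dist (pr ((LE N) (Φ₀ w))) (pr ((LE N) (Φ₀ z₀))) < ε / 2 := hpr (hw1'.trans (by linarith))
  have h2 : dist (Φ n w) (Φ₀ z₀) < η := by
    have h3 := hn w hwt
    rw [dist_comm] at h3
    exact (dist_triangle _ (Φ₀ w) _).trans_lt (by linarith)
  have h3 : dist (pr ((LE N) (Φ n w))) (pr ((LE N) (Φ₀ z₀))) < ε / 2 := hpr h2
  obtain ⟨h4, h4'⟩ := hf w hw2
  obtain ⟨h5, h5'⟩ := hφn.2 w hw2
  show dist (prP (f w)) (prP (F n w)) < ε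
  rw [h4', h5', prP_mk, prP_mk]
  rw [dist_comm] at h3
  exact (dist_triangle _ (pr ((LE N) (Φ₀ z₀))) _).trans_lt (by linarith)

/-- limits of discs in `U ⊆ projVar P` are in `projVar P` -/
theorem limit_mem_projVar {P : Ideal (MvPolynomial (Fin (N + 1)) ℂ)} (hP : Homog P) {U : Set (PN N)} (hUP : U ⊆ projVar P)
    {l : Filter ℕ} {F : ℕ → ℂ → PN N} {f : ℂ → PN N} (hf : IsLimitPN U l F f) (z : ℂ) : f z ∈ projVar P := by
  obtain ⟨H, hHd, hHf⟩ := exists_lift hf.hol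
  obtain ⟨h0, hz⟩ := hHf z
  rw [hz, mk_mem_projVar hP h0]
  refine ⟨h0, fun Q hQ => ?_⟩
  have hc : ContinuousAt (fun w => eval ((LE N).symm (H w)) Q) z :=
    ((MvPolynomial.continuous_eval Q).comp ((LE N).symm.continuous.comp hHd.continuous)).continuousAt
  have h1 : Tendsto (fun w => eval ((LE N).symm (H w)) Q) (𝓝[≠] z) (𝓝 (eval ((LE N).symm (H z)) Q)) :=
    hc.tendsto.mono_left nhdsWithin_le_nhds
  have h2 : Tendsto (fun w => eval ((LE N).symm (H w)) Q) (𝓝[≠] z) (𝓝 0) := by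
    refine tendsto_const_nhds.congr' ?_
    filter_upwards [hf.conv z] with w hw
    obtain ⟨h3, hw'⟩ := hHf w
    have h4 := hUP (hf.mem_of_conv w hw)
    rw [hw', mk_mem_projVar hP h3] at h4
    exact (h4.2 Q hQ).symm
  exact tendsto_nhds_unique h1 h2

theorem lcur_of_limitPN {P : Ideal (MvPolynomial (Fin (N + 1)) ℂ)} (hP : Homog P) {U : Set (PN N)} {DE : Set (EN N)} (hUP : U ⊆ projVar P)
    (hD : ∀ (x : EN N) (h : (LE N).symm x ≠ 0), Projectivization.mk ℂ ((LE N).symm x) h ∈ U → x ∉ DE)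
    {l : Filter ℕ} {F : ℕ → ℂ → PN N} {f : ℂ → PN N} (hf : IsLimitPN U l F f) :
    ∃ H : ℂ → EN N, H ∈ LCur (coneE P) DE ∧ ∀ z, ∃ h : (LE N).symm (H z) ≠ 0, f z = Projectivization.mk ℂ ((LE N).symm (H z)) h := by
  obtain ⟨H, hHd, hHf⟩ := exists_lift hf.hol
  refine ⟨H, ⟨hHd, fun z => ?_, {z | ConvPN l F f z}ᶜ, convPN_open.isClosed_compl, ?_, ?_⟩, hHf⟩
  · obtain ⟨h0, hz⟩ := hHf z
    exact (mem_coneE hP).2 ⟨h0, hz ▸ limit_mem_projVar hP hUP hf z⟩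
  · intro z
    filter_upwards [hf.conv z] with w hw
    exact fun hn => hn hw
  · intro R ε hε K hK hKZ
    have hKC : K ⊆ {z | ConvPN l F f z} := fun z hz => not_not.1 (hKZ z hz)
    have h1 : TendstoUniformlyOn (fun n z => prP (F n z)) (fun z => prP (f z)) l K :=
      (tendstoLocallyUniformlyOn_iff_tendstoUniformlyOn_of_compact hK).1 (convPN_unif.mono hKC)
    have h2 := Metric.tendstoUniformlyOn_iff.1 h1 ε hε
    have h3 : ∀ᶠ n : ℕ in l, |R| + 1 < (n : ℝ) + 1 := by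
      refine hf.le_atTop ?_
      have : Tendsto (fun n : ℕ => (n : ℝ) + 1) atTop atTop := tendsto_natCast_atTop_atTop.atTop_add tendsto_const_nhds
      exact this.eventually_gt_atTop _
    have := hf.neBot
    obtain ⟨n, hn1, hn2⟩ := (h2.and h3).exists
    have hR : R ≤ |R| := le_abs_self R
    obtain ⟨G, hG, hGF⟩ := lift_big (r := |R| + 1) (by positivity) hn2 (hf.holF n)
    have hball : ∀ z : ℂ, ‖z‖ ≤ R → z ∈ ball (0 : ℂ) (|R| + 1) := fun z hz => by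
      rw [mem_ball_zero_iff]
      linarith
    refine ⟨G, fun z hz => ?_, fun z hz hzR => ?_⟩
    · have hzb := hball z (by simpa using hz)
      obtain ⟨h4, h4'⟩ := hGF z hzb
      have h5 : F n z ∈ U := hf.memF n z (by
        rw [mem_ball_zero_iff] at hzb ⊢
        linarith)
      rw [h4'] at h5
      exact ⟨hG.analyticAt (isOpen_ball.mem_nhds hzb), (mem_coneE hP).2 ⟨h4, hUP h5⟩, hD _ h4 h5⟩
    · obtain ⟨h4, h4'⟩ := hGF z (hball z hzR)
      obtain ⟨h5, h5'⟩ := hHf z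
      have h6 := hn1 z hz
      rw [h4', h5', mk_symm h4, mk_symm h5, dist_comm] at h6
      exact h6

end Pool.Agent.H19E
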