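import Pool.Agent.H19E.Defs4
import Pool.Agent.H86.LR.Main
import Pool.Agent.H7.Bir.Map
import Pool.Agent.H13.SM.Homog

/-!
# H19E FunE: translation of the definitions for surfaces with a rational function which omits values (project LOG-R)
-/

set_option autoImplicit false

open Topology Filter MvPolynomial

noncomputable section

namespace Pool.Agent.H19E.V4

open Pool.Agent.H17 (PN VanishesAt HolomorphicInto)
open Pool.Agent.H62.SA (locVar)
open Pool.Agent.H19Q (QSurface)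

variable {Λ : AddSubgroup ℂ}

theorem rep_pn (p : PN 1) : Rep ![p.rep 0, p.rep 1] p := by
  have h : ![p.rep 0, p.rep 1] = p.rep := by
    funext i
    fin_cases i <;> rfl
  rw [h]
  exact ⟨p.rep_nonzero, (Projectivization.mk_rep p).symm⟩

/-- coordinates of the same point -/
theorem Rep.ratio {v v' : Fin 2 → ℂ} {q : PN 1} (h : Rep v q) (h' : Rep v' q) : ∃ k : ℂ, k ≠ 0 ∧ v = k • v' := by
  obtain ⟨h1, rfl⟩ := h
  obtain ⟨h2, h3⟩ := h'
  rw [Projectivization.mk_eq_mk_iff'] at h3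
  obtain ⟨a, ha⟩ := h3
  refine ⟨a, fun h => h1 ?_, ha.symm⟩
  rw [← ha, h, zero_smul]

theorem Rep.congr {v v' : Fin 2 → ℂ} {q : PN 1} (h : Rep v q) {k : ℂ} (hk : v = k • v') : Rep v' q := by
  obtain ⟨h1, rfl⟩ := h
  have h2 : v' ≠ 0 := fun h => h1 (by rw [hk, h, smul_zero])
  refine ⟨h2, ?_⟩
  rw [Projectivization.mk_eq_mk_iff']
  exact ⟨k, hk.symm⟩

/-- the value in the other formulation -/
theorem HasValue.tr {U : QSurface} {W : Fin 2 → MvPolynomial (Fin (U.N + 1)) ℂ} {x : PN U.N} {q : PN 1} (h : HasValue U W x q) {s t : ℂ}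
    (hq : Rep ![s, t] q) : Pool.Agent.H46.LR.HasValue U.P (W 0) (W 1) x s t := by
  obtain ⟨γ, ⟨d, hd⟩, h1, y, ⟨hy, rfl⟩, h2⟩ := h
  obtain ⟨a, ha, hrep⟩ := Pool.Agent.H36.BP.rep_mk hy
  have hv : ∀ i, eval (Projectivization.mk ℂ y hy).rep (γ i) = a ^ d * eval y (γ i) := fun i => by
    rw [hrep]
    exact Pool.Agent.H17BP.eval_smul_form (hd i) a y
  have had : a ^ d ≠ 0 := pow_ne_zero _ ha
  obtain ⟨k, hk, hkv⟩ := h2.ratio hq
  have h3 : eval y (γ 0) = k * s := congrFun hkv 0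
  have h4 : eval y (γ 1) = k * t := congrFun hkv 1
  refine ⟨d, γ 0, γ 1, hd 0, hd 1, h1, ?_, ?_⟩
  · rintro ⟨h5, h6⟩
    unfold VanishesAt at h5 h6
    rw [hv] at h5 h6
    obtain ⟨hne, -⟩ := h2
    apply hne
    funext i
    fin_cases i
    · exact (mul_eq_zero.1 h5).resolve_left had
    · exact (mul_eq_zero.1 h6).resolve_left had
  · rw [hv, hv, h3, h4]
    ring

theorem hasValue_of {U : QSurface} {W : Fin 2 → MvPolynomial (Fin (U.N + 1)) ℂ} {x : PN U.N} {w : ℂ}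
    (h : Pool.Agent.H46.LR.HasValue U.P (W 0) (W 1) x w 1) (h1 : (![w, 1] : Fin 2 → ℂ) ≠ 0) : HasValue U W x (Projectivization.mk ℂ ![w, 1] h1) := by
  obtain ⟨d, a, b, ha, hb, h2, h3, h4⟩ := h
  rw [mul_one] at h4
  have hb0 : eval x.rep b ≠ 0 := by
    intro h5
    refine h3 ⟨?_, h5⟩
    unfold VanishesAt
    rw [h4, h5, zero_mul]
  refine ⟨![a, b], ⟨d, fun i => ?_⟩, h2, x.rep, ⟨x.rep_nonzero, (Projectivization.mk_rep x).symm⟩, ?_⟩
  · fin_cases i
    · exact ha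
    · exact hb
  · have h5 : vals ![a, b] x.rep = eval x.rep b • ![w, 1] := by
      funext i
      fin_cases i
      · exact h4
      · show eval x.rep b = eval x.rep b * 1
        rw [mul_one]
    refine ⟨by rw [h5]; exact smul_ne_zero hb0 h1, ?_⟩
    rw [Projectivization.mk_eq_mk_iff']
    refine ⟨(eval x.rep b)⁻¹, ?_⟩
    rw [h5, smul_smul, inv_mul_cancel₀ hb0, one_smul]

/-- the function given by a map to the projective line -/
def fn (S : ℂ ⧸ Λ → PN 1) (z : ℂ) : ℂ := (S z).rep 0 / (S z).rep 1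

theorem fn_eq {S : ℂ ⧸ Λ → PN 1} {z : ℂ} {v : Fin 2 → ℂ} (h : Rep v (S z)) : fn S z = v 0 / v 1 := by
  obtain ⟨k, hk, hkv⟩ := h.ratio (rep_pn (S z))
  have h0 : v 0 = k * (S z).rep 0 := congrFun hkv 0
  have h1 : v 1 = k * (S z).rep 1 := congrFun hkv 1
  unfold fn
  rw [h0, h1, mul_div_mul_left _ _ hk]

/-- The map `S` is constant near no point. -/
theorem IsElliptic.not_const {S : ℂ ⧸ Λ → PN 1} (hS : IsElliptic S) (z₀ : ℂ) (q : PN 1) : ¬ ∀ᶠ z : ℂ in 𝓝 z₀, S z = q := by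
  intro h
  have hc : HolomorphicInto (fun _ : ℂ => q) Set.univ := fun z _ =>
    ⟨fun _ => q.rep, analyticAt_const, Eventually.of_forall fun _ => ⟨q.rep_nonzero, (Projectivization.mk_rep q).symm⟩⟩
  have h1 := Pool.Agent.H7.Bir.pn_identity isPreconnected_univ hS.1 hc (Set.mem_univ z₀) h
  obtain ⟨c, c', hne⟩ := hS.2
  obtain ⟨z, rfl⟩ := QuotientAddGroup.mk_surjective c
  obtain ⟨z', rfl⟩ := QuotientAddGroup.mk_surjective c'
  exact hne ((h1 z (Set.mem_univ _)).trans (h1 z' (Set.mem_univ _)).symm)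

/-- local coordinates of the map near a point: no linear combination of the coordinates is zero near the point -/
theorem IsElliptic.local {S : ℂ ⧸ Λ → PN 1} (hS : IsElliptic S) (z₀ : ℂ) : ∃ φ : ℂ → Fin 2 → ℂ, AnalyticAt ℂ φ z₀ ∧ (∀ᶠ z : ℂ in 𝓝 z₀, Rep (φ z) (S z)) ∧
    ∀ a b : ℂ, (a ≠ 0 ∨ b ≠ 0) → ∀ᶠ z in 𝓝[≠] z₀, a * φ z 0 + b * φ z 1 ≠ 0 := by
  obtain ⟨φ, hφ, he⟩ := hS.1 z₀ (Set.mem_univ _)
  have hrep : ∀ᶠ z : ℂ in 𝓝 z₀, Rep (φ z) (S z) := he
  refine ⟨φ, hφ, hrep, fun a b hab => ?_⟩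
  have hφi : ∀ i, AnalyticAt ℂ (fun z => φ z i) z₀ := fun i => analyticAt_pi_iff.1 hφ i
  have h1 : AnalyticAt ℂ (fun z => a * φ z 0 + b * φ z 1) z₀ := (analyticAt_const.mul (hφi 0)).add (analyticAt_const.mul (hφi 1))
  refine h1.eventually_eq_zero_or_eventually_ne_zero.resolve_left fun h2 => ?_
  have hv : (![b, -a] : Fin 2 → ℂ) ≠ 0 := by
    intro h3
    have h4 : b = 0 := congrFun h3 0
    have h5 : -a = 0 := congrFun h3 1
    rcases hab with h6 | h6
    · exact h6 (neg_eq_zero.1 h5)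
    · exact h6 h4
  refine hS.not_const z₀ (Projectivization.mk ℂ ![b, -a] hv) ?_
  filter_upwards [h2, hrep] with z hz hz'
  obtain ⟨h3, h4⟩ := hz'
  rw [h4, Projectivization.mk_eq_mk_iff']
  -- `φ z` is a multiple of `(b, -a)`
  by_cases hb : b = 0
  · have ha : a ≠ 0 := hab.resolve_right fun h => h hb
    have h5 : φ z 0 = 0 := by
      rw [hb, zero_mul, add_zero] at hz
      exact (mul_eq_zero.1 hz).resolve_left ha
    refine ⟨-(φ z 1) / a, ?_⟩
    funext i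
    fin_cases i
    · show -(φ z 1) / a * b = φ z 0
      rw [hb, mul_zero, h5]
    · show -(φ z 1) / a * -a = φ z 1
      field_simp
  · refine ⟨φ z 0 / b, ?_⟩
    funext i
    fin_cases i
    · show φ z 0 / b * b = φ z 0
      field_simp
    · show φ z 0 / b * -a = φ z 1
      field_simp
      linear_combination -hz

theorem IsElliptic.mero {S : ℂ ⧸ Λ → PN 1} (hS : IsElliptic S) : Pool.Agent.H86.LR.IsElliptic Λ (fn S) where
  meromorphic := fun z => by
    obtain ⟨φ, hφ, he, -⟩ := hS.local z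
    have hφi : ∀ i, AnalyticAt ℂ (fun z => φ z i) z := fun i => analyticAt_pi_iff.1 hφ i
    refine ((hφi 0).meromorphicAt.div (hφi 1).meromorphicAt).congr ?_
    refine Filter.Eventually.filter_mono nhdsWithin_le_nhds ?_
    filter_upwards [he] with w hw
    exact (fn_eq hw).symm
  periodic := fun z l hl => by
    have h1 : ((z + l : ℂ) : ℂ ⧸ Λ) = (z : ℂ ⧸ Λ) := by
      rw [QuotientAddGroup.eq]
      rw [show -(z + l) + z = -l by ring]
      exact Λ.neg_mem hl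
    unfold fn
    rw [h1]

theorem IsElliptic.value {S : ℂ ⧸ Λ → PN 1} (hS : IsElliptic S) {z v : ℂ} (h : Tendsto (fn S) (𝓝[≠] z) (𝓝 v)) : Rep ![v, 1] (S z) := by
  obtain ⟨φ, hφ, he, hne⟩ := hS.local z
  have hφi : ∀ i, Tendsto (fun z => φ z i) (𝓝[≠] z) (𝓝 (φ z i)) := fun i =>
    ((analyticAt_pi_iff.1 hφ i).continuousAt.tendsto).mono_left nhdsWithin_le_nhds
  have h1 : Tendsto (fun w => φ w 0 - fn S w * φ w 1) (𝓝[≠] z) (𝓝 (φ z 0 - v * φ z 1)) := (hφi 0).sub (h.mul (hφi 1))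
  have h2 : ∀ᶠ w in 𝓝[≠] z, φ w 0 - fn S w * φ w 1 = 0 := by
    filter_upwards [hne 0 1 (Or.inr one_ne_zero), Filter.Eventually.filter_mono nhdsWithin_le_nhds he] with w hw hw'
    rw [zero_mul, zero_add, one_mul] at hw
    rw [fn_eq hw', div_mul_cancel₀ _ hw, sub_self]
  have h3 : φ z 0 - v * φ z 1 = 0 := tendsto_nhds_unique (h1.congr' h2) tendsto_const_nhds
  refine he.self_of_nhds.congr (k := φ z 1) ?_
  funext i
  fin_cases i
  · show φ z 0 = φ z 1 * v
    linear_combination h3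
  · show φ z 1 = φ z 1 * 1
    rw [mul_one]

theorem IsElliptic.pole {S : ℂ ⧸ Λ → PN 1} (hS : IsElliptic S) {z : ℂ} (h : Tendsto (fn S) (𝓝[≠] z) (Bornology.cobounded ℂ)) : Rep ![1, 0] (S z) := by
  obtain ⟨φ, hφ, he, hne⟩ := hS.local z
  have h1 : φ z 1 = 0 := by
    by_contra hcon
    have hφi : ∀ i, Tendsto (fun z => φ z i) (𝓝[≠] z) (𝓝 (φ z i)) := fun i =>
      ((analyticAt_pi_iff.1 hφ i).continuousAt.tendsto).mono_left nhdsWithin_le_nhds
    have h2 : Tendsto (fn S) (𝓝[≠] z) (𝓝 (φ z 0 / φ z 1)) := by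
      refine ((hφi 0).div (hφi 1) hcon).congr' ?_
      filter_upwards [Filter.Eventually.filter_mono nhdsWithin_le_nhds he] with w hw
      exact (fn_eq hw).symm
    have h3 := h2.norm
    exact not_tendsto_atTop_of_tendsto_nhds h3 (tendsto_norm_cobounded_atTop.comp h)
  refine he.self_of_nhds.congr (k := φ z 0) ?_
  funext i
  fin_cases i
  · show φ z 0 = φ z 0 * 1
    rw [mul_one]
  · show φ z 1 = φ z 0 * 0
    rw [mul_zero, h1]

theorem IsElliptic.ne_const {S : ℂ ⧸ Λ → PN 1} (hS : IsElliptic S) (κ : ℂ) : ∃ z, AnalyticAt ℂ (fn S) z ∧ fn S z ≠ κ := by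
  obtain ⟨φ, hφ, he, hne⟩ := hS.local 0
  have h1 := hne 0 1 (Or.inr one_ne_zero)
  have h2 := hne 1 (-κ) (Or.inl one_ne_zero)
  obtain ⟨w, ⟨h3, h4⟩, h5, h6⟩ := ((h1.and h2).and (Filter.Eventually.filter_mono nhdsWithin_le_nhds
    ((hφ.eventually_analyticAt).and (he.eventually_nhds)))).exists
  rw [zero_mul, zero_add, one_mul] at h3
  have hφi : ∀ i, AnalyticAt ℂ (fun z => φ z i) w := fun i => analyticAt_pi_iff.1 h5 i
  refine ⟨w, ((hφi 0).div (hφi 1) h3).congr ?_, fun h => h4 ?_⟩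
  · filter_upwards [h6] with z hz
    exact (fn_eq hz).symm
  · rw [fn_eq h6.self_of_nhds, div_eq_iff h3] at h
    rw [h]
    ring

/-- the basic surfaces with a rational function -/
theorem HasFunction.tr {U : QSurface} {w : Fin 2 → ℂ} {u : PN U.N → ℂ ⧸ AddSubgroup.closure (Set.range w)}
    {W : Fin 2 → MvPolynomial (Fin (U.N + 1)) ℂ}
    (hsm : ∀ y : Fin (U.N + 1) → ℂ, y ≠ 0 → (∀ Q ∈ U.P, eval y Q = 0) → Module.finrank ℂ (Pool.Agent.H13.SM.conTan U.P y) ≤ 3)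
    (ho : IsOver U w u) (h : HasFunction U u W) : Pool.Agent.H86.LR.IsBaseRE U := by
  obtain ⟨R, A, hR, ⟨dA, hA⟩, hval, hind⟩ := h.independent
  obtain ⟨B, hB, hom, hcase⟩ := h.omits
  obtain ⟨dW, hW⟩ := h.forms
  refine ⟨hsm, ho.curve, AddSubgroup.closure (Set.range w), u, fn R, A 0, A 1, W 0, W 1, B, Pool.Agent.H17EF.lat_of_basis ho.lattice, ho.holomorphic,
    hR.mero, ⟨fun x hx z hz v hv => ?_, fun x hx z hz hv => ?_⟩, ⟨⟨dA, hA 0, hA 1⟩, ⟨dW, hW 0, hW 1⟩, fun Φ hΦ => ?_⟩, hB, fun x hx hxB => ?_, ?_⟩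
  · refine (hval x hx).tr ?_
    rw [← hz]
    exact hR.value hv
  · refine (hval x hx).tr ?_
    rw [← hz]
    exact hR.pole hv
  · obtain ⟨y, x, hx, ⟨hy, rfl⟩, h1, h2, h3⟩ := hind Φ hΦ
    obtain ⟨a, ha, hrep⟩ := Pool.Agent.H36.BP.rep_mk hy
    have hvA : ∀ i, eval (Projectivization.mk ℂ y hy).rep (A i) = a ^ dA * eval y (A i) := fun i => by
      rw [hrep]
      exact Pool.Agent.H17BP.eval_smul_form (hA i) a y
    have hvW : ∀ i, eval (Projectivization.mk ℂ y hy).rep (W i) = a ^ dW * eval y (W i) := fun i => by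
      rw [hrep]
      exact Pool.Agent.H17BP.eval_smul_form (hW i) a y
    refine ⟨_, hx, ?_, ?_, ?_⟩
    · unfold VanishesAt
      rw [hvA]
      exact mul_ne_zero (pow_ne_zero _ ha) h1
    · unfold VanishesAt
      rw [hvW]
      exact mul_ne_zero (pow_ne_zero _ ha) h2
    · rw [hvA, hvA, hvW, hvW, mul_div_mul_left _ _ (pow_ne_zero _ ha), mul_div_mul_left _ _ (pow_ne_zero _ ha)]
      exact h3
  · obtain ⟨q, hq, h0, h1, h2⟩ := hom x hx hxB
    have hr := rep_pn q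
    have hr1 : q.rep 1 ≠ 0 := by
      intro h3
      refine h2 (hr.congr (k := q.rep 0) ?_)
      funext i
      fin_cases i
      · show q.rep 0 = q.rep 0 * 1
        rw [mul_one]
      · show q.rep 1 = q.rep 0 * 0
        rw [mul_zero, h3]
    have hr2 : Rep ![q.rep 0 / q.rep 1, 1] q := by
      refine hr.congr (k := q.rep 1) ?_
      funext i
      fin_cases i
      · show q.rep 0 = q.rep 1 * (q.rep 0 / q.rep 1)
        field_simp
      · show q.rep 1 = q.rep 1 * 1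
        rw [mul_one]
    refine ⟨q.rep 0 / q.rep 1, fun h3 => h0 ?_, fun h3 => h1 ?_, hq.tr hr2⟩
    · rwa [h3] at hr2
    · rwa [h3] at hr2
  · rcases hcase with ⟨S, hS, h1⟩ | ⟨c, T, hT, h1⟩
    · refine Or.inl ⟨fn S, hS.mero, hS.ne_const, fun x hx hxB z w hz hL hv heq => ?_⟩
      have h2 : (![w, 1] : Fin 2 → ℂ) ≠ 0 := fun h => one_ne_zero (congrFun h 1)
      refine h1 x hx hxB _ (hasValue_of hv h2) ?_
      rw [← hz]
      obtain ⟨h3, h4⟩ := hS.value (hL.continuousAt.tendsto.mono_left nhdsWithin_le_nhds)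
      rw [h4]
      congr 1
      rw [heq]
    · classical
      refine Or.inr ⟨c, hT.toFinset.image fun q => (q.rep 0, q.rep 1), fun h2 => ?_, fun x hx hxc => ?_⟩
      · obtain ⟨q, -, hq⟩ := Finset.mem_image.1 h2
        apply q.rep_nonzero
        funext i
        fin_cases i
        · exact (Prod.mk.inj hq).1
        · exact (Prod.mk.inj hq).2
      · obtain ⟨q, hq, hq'⟩ := h1 x hx hxc
        exact ⟨_, Finset.mem_image_of_mem _ (hT.mem_toFinset.2 hq), hq'.tr (rep_pn q)⟩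

end Pool.Agent.H19E.V4
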