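import Pool.Agent.H19E.BaseE
import Pool.Agent.H19E.AffN
import Pool.Agent.H19E.FunE
import Pool.Agent.H19Q.Induct
import Pool.Agent.H17G.ChG

/-!
# H19E ClassE: the theorem for the basic surfaces
-/

set_option autoImplicit false

open MvPolynomial

noncomputable section

namespace Pool.Agent.H19E.V4

open Pool.Agent.H17 (PN VanishesAt)
open Pool.Agent.H62.SA (locVar OnBd)
open Pool.Agent.H62.FC (Homog)
open Pool.Agent.H13.SM (conTan cone)
open Pool.Agent.H17EF (projVar mk_mem_projVar lat_of_basis)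
open Pool.Agent.H19Q (QSurface)
open Pool.Agent.H7.Bir (GGLOpen)
open Pool.Agent.H14.KB (KobayashiHyperbolicModulo)

variable {N M r s s' : ℕ}

theorem rep_mk {x : Fin (N + 1) → ℂ} (hx : x ≠ 0) : Rep x (Projectivization.mk ℂ x hx) := ⟨hx, rfl⟩

theorem rep_rep (p : PN N) : Rep p.rep p := ⟨p.rep_nonzero, (Projectivization.mk_rep p).symm⟩

theorem exists_rep_iff {P : Ideal (MvPolynomial (Fin (N + 1)) ℂ)} (hP : Homog P) {x : Fin (N + 1) → ℂ} :
    (∃ q ∈ projVar P, Rep x q) ↔ x ∈ cone P := by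
  constructor
  · rintro ⟨q, hq, h, rfl⟩
    exact (mk_mem_projVar hP h).1 hq
  · intro h
    exact ⟨_, (mk_mem_projVar hP h.1).2 h, rep_mk h.1⟩

/-- the dimension of the tangent space of the cone -/
theorem finrank_conTan {P : Ideal (MvPolynomial (Fin (N + 1)) ℂ)} {x : Fin (N + 1) → ℂ} {f : Fin (N - 2) → MvPolynomial (Fin (N + 1)) ℂ}
    (hf : ∀ j, f j ∈ P) (hli : LinearIndependent ℂ fun (j : Fin (N - 2)) (i : Fin (N + 1)) => eval x (pderiv i (f j))) :
    Module.finrank ℂ (conTan P x) ≤ 3 := by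
  let A : Matrix (Fin (N - 2)) (Fin (N + 1)) ℂ := Matrix.of fun j i => eval x (pderiv i (f j))
  have hA : LinearIndependent ℂ A.row := hli
  have h1 : A.rank = N - 2 := by
    rw [hA.rank_matrix, Fintype.card_fin]
  have h2 := LinearMap.finrank_range_add_finrank_ker A.mulVecLin
  have h3 : conTan P x ≤ LinearMap.ker A.mulVecLin := by
    intro v hv
    rw [LinearMap.mem_ker]
    funext j
    show ∑ i, A j i * v i = 0
    rw [← hv (f j) (hf j)]
    exact Finset.sum_congr rfl fun i _ => mul_comm _ _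
  have h4 := Submodule.finrank_mono h3
  have h5 : Module.finrank ℂ (LinearMap.range A.mulVecLin) = N - 2 := h1
  rw [h5, Module.finrank_fin_fun] at h2
  omega

theorem SmoothOn.finrank {U : QSurface} {S : Set (PN U.N)} (h : SmoothOn U S) {y : Fin (U.N + 1) → ℂ} (hy : y ≠ 0)
    (hS : Projectivization.mk ℂ y hy ∈ S) : Module.finrank ℂ (conTan U.P y) ≤ 3 := by
  obtain ⟨f, hf, hli⟩ := h y _ hS (rep_mk hy)
  exact finrank_conTan hf hli

theorem SmoothOn.finrank_cl {U : QSurface} (h : SmoothOn U (cl U)) (y : Fin (U.N + 1) → ℂ) (hy : y ≠ 0)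
    (h0 : ∀ Q ∈ U.P, eval y Q = 0) : Module.finrank ℂ (conTan U.P y) ≤ 3 :=
  h.finrank hy ((mk_mem_projVar U.homog hy).2 ⟨hy, h0⟩)

theorem rmap_of_rep {γ : Fin (N + 1) → MvPolynomial (Fin (M + 1)) ℂ} {x : PN M} {q : PN N} (h : Rep (vals γ x.rep) q) :
    Pool.Agent.H7.Bir.rmap γ x = q := by
  obtain ⟨h1, rfl⟩ := h
  unfold Pool.Agent.H7.Bir.rmap
  exact dif_pos h1

/-- Two quasi-projective surfaces with the same points are modifications of each other. -/
theorem isModification_id {P : Ideal (MvPolynomial (Fin (N + 1)) ℂ)} {G : Fin s → MvPolynomial (Fin (N + 1)) ℂ}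
    {G' : Fin s' → MvPolynomial (Fin (N + 1)) ℂ} (h : locVar P G = locVar P G') (hne : (projVar P).Nonempty) :
    Pool.Agent.H19Q.IsModification P P G G' id := by
  have hv : ∀ x : Fin (N + 1) → ℂ, Pool.Agent.H7.Bir.vals (fun i : Fin (N + 1) => (X i : MvPolynomial (Fin (N + 1)) ℂ)) x = x := by
    intro x
    funext i
    exact eval_X i
  have hr : ∀ x : PN N, Pool.Agent.H7.Bir.rmap (fun i : Fin (N + 1) => (X i : MvPolynomial (Fin (N + 1)) ℂ)) x = x := by
    intro x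
    refine rmap_of_rep ?_
    have : vals (fun i : Fin (N + 1) => (X i : MvPolynomial (Fin (N + 1)) ℂ)) x.rep = x.rep := hv _
    rw [this]
    exact rep_rep x
  refine ⟨⟨fun y hy => hy, fun x hx => ⟨x, hx, rfl⟩, fun y hy => ⟨1, fun i => X i, fun i => isHomogeneous_X _ _, ?_, fun y' _ _ => (hr y').symm⟩⟩,
    fun y hy => by rw [h]; exact Iff.rfl, 1, fun i => X i, fun i => isHomogeneous_X _ _, ?_, fun y _ _ => hr y⟩
  · rw [hv]
    exact y.rep_nonzero
  · obtain ⟨x, hx⟩ := hne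
    refine ⟨x, hx, ?_⟩
    rw [hv]
    exact x.rep_nonzero

/-- The four properties depend only on the set of the points of `U`. -/
theorem gglOpen_congr {P : Ideal (MvPolynomial (Fin (N + 1)) ℂ)} [P.IsPrime] (hP : Homog P) {G : Fin s → MvPolynomial (Fin (N + 1)) ℂ}
    {G' : Fin s' → MvPolynomial (Fin (N + 1)) ℂ} (hG : ∀ m, ∃ n, (G m).IsHomogeneous n) (hG' : ∀ m, ∃ n, (G' m).IsHomogeneous n)
    (h : locVar P G = locVar P G') (hne : (locVar P G).Nonempty) {Ξ : Set (PN N)} (H : GGLOpen P G Ξ) : GGLOpen P G' Ξ := by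
  have key : ∀ (Q : Ideal (MvPolynomial (Fin (N + 1)) ℂ)) [Q.IsPrime], Homog Q → locVar Q G = locVar Q G' → (locVar Q G).Nonempty → ∀ {k : ℕ},
      (∃ z : Fin k → Pool.Agent.H17LG.Variety.FunField Q, IsTranscendenceBasis ℂ z) →
      Pool.Agent.H17LG.Variety.IsLogGeneralType (OnBd Q G (k := k)) → Pool.Agent.H17LG.Variety.IsLogGeneralType (OnBd Q G' (k := k)) := by
    intro Q _ hQ hl hnQ k hz hgt
    have hm := isModification_id hl (hnQ.mono fun _ hx => hx.1)
    exact Pool.Agent.H7.Qup.logGT_up (P := Q) (P' := Q) (G := G) (G' := G') (hm.toIsRegularOnto.isDominantMap hm.inv hQ hG hnQ) hQ hG hG'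
      (hl ▸ hnQ) hz hz hgt
  refine ⟨h ▸ H.closed, h ▸ H.proper, fun w hw hz => key P hP h hne hz (H.logGeneralType w hw hz), ?_, ?_, ?_⟩
  · rw [← h]
    exact H.picard
  · rw [← h]
    exact H.brody
  · intro Q _ hQ hPQ hsub w hw hz
    have hl : locVar Q G = locVar Q G' := by
      ext x
      constructor
      · intro hx
        have h1 : x ∈ locVar P G := ⟨fun R hR => hx.1 R (hPQ hR), hx.2⟩
        rw [h] at h1
        exact ⟨hx.1, h1.2⟩
      · intro hx
        have h1 : x ∈ locVar P G' := ⟨fun R hR => hx.1 R (hPQ hR), hx.2⟩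
        rw [← h] at h1
        exact ⟨hx.1, h1.2⟩
    refine key Q hQ hl ?_ hz (H.strongly Q hQ hPQ (by rwa [hl]) w hw hz)
    rw [hl]
    by_contra hcon
    exact hsub fun x hx => absurd ⟨x, hx⟩ hcon

/-- the conclusion for the basic surfaces -/
def GoodK (U : QSurface) : Prop :=
  ∃ Ξ : Set (PN U.N), GGLOpen U.P U.G Ξ ∧ ∃ (Q : MvPolynomial (Fin (U.N + 1)) ℂ) (D : ℕ), Q.IsHomogeneous D ∧
    (∃ x ∈ locVar U.P U.G, ¬ VanishesAt Q x) ∧ (∀ x, x ∈ Ξ ↔ x ∈ locVar U.P U.G ∧ VanishesAt Q x) ∧ KobayashiHyperbolicModulo (locVar U.P U.G) Q D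

theorem HasFormsAlong.good {U : QSurface} {w w' : Fin 2 → ℂ} {u : PN U.N → ℂ ⧸ AddSubgroup.closure (Set.range w)} {D : Set (PN U.N)}
    (ho : IsOver U w u) (h : HasFormsAlong U w w' u D) (hgt : U.LogGeneralType) : GoodK U := by
  obtain ⟨z, hz⟩ := U.dim
  choose e he using U.form
  exact Pool.Agent.H19E.ggl_base U.homog hz U.nonempty ho.smooth.finrank_cl he ho.curve hgt ho.lattice h.lattice.1 h.lattice.2 ho.holomorphic
    ho.nonconstant h.closed h.boundary h.horizontal h.vertical h.forms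

theorem IsComplement.good {U : QSurface} {w : Fin 2 → ℂ} {u : PN U.N → ℂ ⧸ AddSubgroup.closure (Set.range w)}
    {H : Fin s → MvPolynomial (Fin (U.N + 1)) ℂ} (ho : IsOver U w u) (h : IsComplement U H) (hgt : U.LogGeneralType) : GoodK U := by
  have hl : locVar U.P (fun _ : Fin 1 => ∏ i, H i) = locVar U.P U.G := by
    ext x
    have hprod : VanishesAt (∏ i, H i) x ↔ ∃ i, VanishesAt (H i) x := by
      unfold VanishesAt
      rw [map_prod, Finset.prod_eq_zero_iff]
      exact ⟨fun ⟨i, _, hi⟩ => ⟨i, hi⟩, fun ⟨i, hi⟩ => ⟨i, Finset.mem_univ i, hi⟩⟩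
    constructor
    · rintro ⟨hx, _, h1⟩
      refine (h.complement x hx).2 fun i hi => h1 (hprod.2 ⟨i, hi⟩)
    · intro hx
      refine ⟨hx.1, 0, fun h1 => ?_⟩
      obtain ⟨i, hi⟩ := hprod.1 h1
      exact (h.complement x hx.1).1 hx i hi
  have hX : (projVar U.P).Nonempty := U.nonempty.mono fun _ hx => hx.1
  choose d hd hH using h.forms
  have hHH : ∀ _ : Fin 1, ∃ n, (∏ i, H i).IsHomogeneous n := fun _ => ⟨_, IsHomogeneous.prod _ _ _ fun i _ => hH i⟩
  have hHP : ∀ i, H i ∉ U.P := by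
    intro i hi
    obtain ⟨x, hx⟩ := U.nonempty
    exact (h.complement x hx.1).1 hx i (hx.1 _ hi _ (hH i))
  have hm := isModification_id (P := U.P) hl.symm hX
  have hgt' : Pool.Agent.H17LG.Variety.IsLogGeneralType (K := Pool.Agent.H17LG.Variety.FunField U.P) (k := 2)
      (OnBd U.P (fun _ : Fin 1 => ∏ i, H i)) :=
    Pool.Agent.H7.Qup.logGT_up (P := U.P) (P' := U.P) (G := U.G) (G' := fun _ : Fin 1 => ∏ i, H i)
      (hm.toIsRegularOnto.isDominantMap hm.inv U.homog U.form U.nonempty) U.homog U.form hHH (hl ▸ U.nonempty) U.dim U.dim hgt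
  obtain ⟨z, hz⟩ := U.dim
  obtain ⟨Ξ, h1, Q, D, h2, h3, h4, h5⟩ := Pool.Agent.H19E.affine_ggl U.homog hz hX ho.smooth.finrank_cl
    (lat_of_basis ho.lattice) ho.holomorphic ho.nonconstant hH hd hHP hgt' (Or.inl h.curves)
  have h6 := gglOpen_congr U.homog hHH U.form hl (hl ▸ U.nonempty) h1
  rw [hl] at h3 h4 h5
  exact ⟨Ξ, h6, Q, D, h2, h3, h4, h5⟩

/-- **The basic surfaces.** -/
theorem IsBasic.good {U : QSurface} (h : IsBasic U) (hgt : U.LogGeneralType) : GoodK U := by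
  obtain ⟨w, u, ho, h⟩ := h
  rcases h with ⟨w', D, h⟩ | ⟨W, h⟩ | ⟨s, H, h⟩
  · exact h.good ho hgt
  · exact Pool.Agent.H86.LR.base_mainRE (h.tr ho.smooth.finrank_cl ho) hgt
  · exact h.good ho hgt

end Pool.Agent.H19E.V4
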