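import Pool.Agent.H36.LB.Final
import Pool.Agent.H36.LB.KobL
import Pool.Agent.H7.Bir.Open
import Pool.Agent.H13.CV.Strong

/-!
# H19E Fin: from limits of discs of order two to the properties of the conjecture
-/

set_option autoImplicit false

open Topology Filter MvPolynomial

noncomputable section

namespace Pool.Agent.H19E

open Pool.Agent.H17 (PN VanishesAt ZariskiClosedIn HolomorphicInto puncturedDisc)
open Pool.Agent.H62.FC (Homog)
open Pool.Agent.H62.SA (locVar OnBd locCone)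
open Pool.Agent.H17LG.Variety (FunField IsLogGeneralType)
open Pool.Agent.H13.SM (conTan)
open Pool.Agent.H36.BPL (OpenPart)
open Pool.Agent.H68.KR (cone)
open Pool.Agent.H36.LB (LimModPN lim_surface limit_of_kobayashi isLimitPN_const)

variable {N : ℕ} {P : Ideal (MvPolynomial (Fin (N + 1)) ℂ)} {s : ℕ} {G : Fin s → MvPolynomial (Fin (N + 1)) ℂ} {e : Fin s → ℕ}

theorem ggl_of_limMod [P.IsPrime] (hP : Homog P) {z : Fin 2 → FunField P} (hz : IsTranscendenceBasis ℂ z)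
    (hsm : ∀ y : Fin (N + 1) → ℂ, y ≠ 0 → (∀ Q ∈ P, eval y Q = 0) → Module.finrank ℂ (conTan P y) ≤ 3)
    (hG : ∀ m, (G m).IsHomogeneous (e m)) (hO : OpenPart (cone P) (locCone P G))
    (hgt : IsLogGeneralType (K := FunField P) (k := 2) (OnBd P G))
    {Ξ : Set (PN N)} (hΞ : ZariskiClosedIn (locVar P G) Ξ) (hne : Ξ ≠ locVar P G) (hbr : LimModPN (locVar P G) Ξ) :
    ∃ Ξ' : Set (PN N), Pool.Agent.H7.Bir.GGLOpen P G Ξ' := by
  obtain ⟨Q, D, hQ, hex, -, hkob, hpic⟩ := lim_surface hP hz hsm hG hO hgt hΞ hne hbr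
  have hcl : ZariskiClosedIn (locVar P G) {x | x ∈ locVar P G ∧ ∀ R ∈ ({Q} : Set (MvPolynomial (Fin (N + 1)) ℂ)), VanishesAt R x} :=
    ⟨{Q}, fun R hR => ⟨D, by rw [Set.mem_singleton_iff.1 hR]; exact hQ⟩, rfl⟩
  have hbrody : ∀ f : ℂ → PN N, HolomorphicInto f Set.univ → (∀ z, f z ∈ locVar P G) → (∃ z w, f z ≠ f w) →
      ∀ z, f z ∈ {x | x ∈ locVar P G ∧ ∀ R ∈ ({Q} : Set (MvPolynomial (Fin (N + 1)) ℂ)), VanishesAt R x} := by
    intro f hf hfU hfn z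
    refine ⟨hfU z, fun R hR => ?_⟩
    rw [Set.mem_singleton_iff.1 hR]
    exact limit_of_kobayashi hQ hkob (isLimitPN_const hf hfU) hfn z
  refine ⟨_, hcl, ?_, ?_, ?_, hbrody, ?_⟩
  · intro h1
    obtain ⟨x, hx, hxQ⟩ := hex
    rw [← h1] at hx
    exact hxQ (hx.2 Q rfl)
  · intro k _ ⟨z₂, hz₂⟩
    have h5 := hz₂.cardinalMk_eq_trdeg
    rw [← hz.cardinalMk_eq_trdeg, Cardinal.mk_fin, Cardinal.mk_fin] at h5
    have h4 : k = 2 := by exact_mod_cast h5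
    subst h4
    exact hgt
  · rintro f hf hfU ⟨z₀, hz₀, hfz₀⟩
    refine hpic f hf hfU ⟨z₀, hz₀, fun h => hfz₀ ⟨hfU z₀ hz₀, fun R hR => ?_⟩⟩
    rw [Set.mem_singleton_iff.1 hR]
    exact h
  · exact fun Q' _ hQ' hPQ hsub k hk hz' =>
      Pool.Agent.H13.CV.strongly_of_brodyL P hP ⟨z, hz⟩ (fun m => ⟨_, hG m⟩) hcl hgt hbrody Q' hQ' hPQ hsub k hk hz'

end Pool.Agent.H19E
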