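import Pool.Agent.H18.LU.Bas
import Pool.Agent.H18.LU.Base
import Pool.Agent.H17G.BoundP
import Pool.Agent.H17EF.MainE

/-!
# H19E LimB: finitely many limit sections are doubly periodic and degenerate
-/

set_option autoImplicit false

open Topology Filter MvPolynomial Metric

noncomputable section

namespace Pool.Agent.H19E

open Pool.Agent.H17 (PN VanishesAt HolomorphicInto ZariskiClosedIn)
open Pool.Agent.H62.FC (Homog)
open Pool.Agent.H62.EF (MN pr Lat TorusMap Sec pr_smul pr_eq_iff continuousAt_pr sec_trans)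
open Pool.Agent.H13.SM (cone)
open Pool.Agent.H36.BP (EN fs wd wd_cont)
open Pool.Agent.H17LG.Variety (FunField)
open Pool.Agent.H17EF (projVar IsHolomorphicMap coneE uE LE prP prP_mk mk_symm prP_injective LE_ne_zero mem_coneE mk_mem_projVar exists_lift
  lat_of_basis ordTwo_symm ordTwo_of_fs exists_form_of_periodic IsPeriod)
open Pool.Agent.H17G (fs_eq_of_pr)
open Pool.Agent.H18.LU (LSec SecAt secAt_add)

variable {N : ℕ} {X D : Set (EN N)} {Λ : AddSubgroup ℂ} {u : EN N → ℂ}

theorem lsec_add {f : ℂ → MN N} (hf : f ∈ LSec X D Λ u) {l : ℂ} (hl : l ∈ Λ) : (fun z => f (z + l)) ∈ LSec X D Λ u := by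
  obtain ⟨⟨F, hF, hFf⟩, Z, hZc, hZd, hap⟩ := hf
  have hc : Continuous (fun z : ℂ => z + l) := continuous_id.add continuous_const
  refine ⟨⟨fun z => F (z + l), sec_trans hF hl, fun z => hFf (z + l)⟩, (fun z => z + l) ⁻¹' Z, hZc.preimage hc, ?_, ?_⟩
  · intro z
    have h1 : Tendsto (fun z : ℂ => z + l) (𝓝[≠] z) (𝓝[≠] (z + l)) :=
      tendsto_nhdsWithin_of_tendsto_nhds_of_eventually_within _ (hc.continuousAt.mono_left nhdsWithin_le_nhds)
        (by filter_upwards [self_mem_nhdsWithin] with w hw; exact fun e => hw (add_right_cancel e))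
    exact h1.eventually (hZd (z + l))
  · intro R ε hε K hK hKZ
    obtain ⟨G, hG1, hG2⟩ := hap (R + ‖l‖) ε hε ((fun z => z + l) '' K) (hK.image hc) (by
      rintro _ ⟨z, hz, rfl⟩
      exact hKZ z hz)
    refine ⟨fun z => G (z + l), fun z hz => (secAt_add hl).2 (hG1 _ ?_), fun z hz hzR => hG2 _ ⟨z, hz, rfl⟩ ?_⟩
    · rw [mem_closedBall_zero_iff] at hz ⊢
      exact (norm_add_le _ _).trans (by linarith)
    · exact (norm_add_le _ _).trans (by linarith)

theorem lsec_period (hfin : (LSec X D Λ u).Finite) {f : ℂ → MN N} (hf : f ∈ LSec X D Λ u) {l : ℂ} (hl : l ∈ Λ) :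
    ∃ m : ℕ, 1 ≤ m ∧ ∀ z, f (z + (m : ℂ) * l) = f z := by
  have hmem : ∀ k : ℕ, (fun z => f (z + (k : ℂ) * l)) ∈ LSec X D Λ u := by
    intro k
    refine lsec_add hf ?_
    have : (k : ℂ) * l = k • l := by simp
    rw [this]
    exact Λ.nsmul_mem hl k
  have hfin' : Finite (LSec X D Λ u) := hfin
  obtain ⟨i, j, hij, he⟩ := Finite.exists_ne_map_eq_of_infinite (fun k : ℕ => (⟨_, hmem k⟩ : LSec X D Λ u))
  have he' : (fun z => f (z + (i : ℂ) * l)) = fun z => f (z + (j : ℂ) * l) := congrArg Subtype.val he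
  have hmain : ∀ i j : ℕ, i < j → (fun z => f (z + (i : ℂ) * l)) = (fun z => f (z + (j : ℂ) * l)) →
      ∃ m : ℕ, 1 ≤ m ∧ ∀ z, f (z + (m : ℂ) * l) = f z := by
    intro i j hij he
    refine ⟨j - i, by omega, fun z => ?_⟩
    have h1 : f (z - (i : ℂ) * l + (i : ℂ) * l) = f (z - (i : ℂ) * l + (j : ℂ) * l) := congrFun he (z - (i : ℂ) * l)
    rw [show z - (i : ℂ) * l + (i : ℂ) * l = z by ring] at h1
    rw [h1]
    congr 1
    push_cast [Nat.cast_sub hij.le]
    ring
  rcases lt_or_gt_of_ne hij with h | h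
  · exact hmain i j h he'
  · exact hmain j i h he'.symm

private theorem fs_continuous {F : ℂ → EN N} (hFd : Differentiable ℂ F) (hF0 : ∀ z, F z ≠ 0) : Continuous fun z => fs (F z) (deriv F z) := by
  have h1 : Continuous (deriv F) := continuous_iff_continuousAt.2 fun z => (hFd.analyticAt z).deriv.continuousAt
  have h2 : Continuous (fun z => (F z, deriv F z)) := hFd.continuous.prodMk h1
  have h3 := (wd_cont (N := N)).comp h2
  have h4 : Continuous fun z => ‖F z‖ ^ 2 := hFd.continuous.norm.pow 2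
  have h5 : ∀ z, ‖F z‖ ^ 2 ≠ 0 := fun z => pow_ne_zero 2 (norm_ne_zero_iff.2 (hF0 z))
  exact Continuous.div h3 h4 h5

/-- a doubly periodic curve has bounded derivative -/
theorem fs_bound_of_periods {F : ℂ → EN N} (hF : Differentiable ℂ F) (h0 : ∀ z, F z ≠ 0) {w : Fin 2 → ℂ} (hw : LinearIndependent ℝ w)
    (hper : ∀ i z, pr (F (z + w i)) = pr (F z)) : ∃ L : ℝ, ∀ z, fs (F z) (deriv F z) ≤ L := by
  have hlat := lat_of_basis hw
  obtain ⟨R, hR, hco⟩ := hlat.cocompact
  -- all the elements of the lattice are periods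
  let Λ' : AddSubgroup ℂ :=
    { carrier := {l | ∀ z, pr (F (z + l)) = pr (F z)}
      add_mem' := fun {a b} ha hb z => by
        rw [← add_assoc]
        exact (hb (z + a)).trans (ha z)
      zero_mem' := fun z => by rw [add_zero]
      neg_mem' := fun {a} ha z => by
        have h1 := ha (z + -a)
        rw [neg_add_cancel_right] at h1
        exact h1.symm }
  have hle : AddSubgroup.closure (Set.range w) ≤ Λ' := by
    rw [AddSubgroup.closure_le]
    rintro _ ⟨i, rfl⟩
    exact hper i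
  have hcont := fs_continuous hF h0
  obtain ⟨B, hB⟩ := (isCompact_closedBall (0 : ℂ) R).bddAbove_image hcont.continuousOn
  refine ⟨B, fun z => ?_⟩
  obtain ⟨l, hl, hlz⟩ := hco z
  have h3 := hB ⟨_, mem_closedBall_zero_iff.2 hlz, rfl⟩
  have htr : deriv (fun w => F (w + l)) (z - l) = deriv F z := by
    rw [deriv_comp_add_const]
    congr 1
    ring
  have h4 : fs (F (z - l)) (deriv F (z - l)) = fs (F z) (deriv F z) := by
    have h5 := fs_eq_of_pr (F := fun w => F (w + l)) (G := F) (z := z - l)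
      ((hF.comp (differentiable_id.add_const _)).analyticAt _) (hF.analyticAt _) (h0 _) (h0 _)
      (Filter.Eventually.of_forall fun w => hle hl w)
    rw [htr] at h5
    simp only [sub_add_cancel] at h5
    exact h5.symm
  rw [← h4]
  exact h3

/-- the limit sections are algebraically degenerate -/
theorem lsec_form {P : Ideal (MvPolynomial (Fin (N + 1)) ℂ)} [P.IsPrime] {z : Fin 2 → FunField P} (hz : IsTranscendenceBasis ℂ z)
    {w : Fin 2 → ℂ} (hw : LinearIndependent ℝ w)
    (hfin : (LSec (coneE P) D (AddSubgroup.closure (Set.range w)) u).Finite) {f : ℂ → MN N}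
    (hf : f ∈ LSec (coneE P) D (AddSubgroup.closure (Set.range w)) u) :
    ∃ (Q : MvPolynomial (Fin (N + 1)) ℂ) (d : ℕ), Q.IsHomogeneous d ∧ Q ∉ P ∧
      ∀ (z : ℂ) (x : EN N), (LE N).symm x ≠ 0 → pr x = f z → eval ((LE N).symm x) Q = 0 := by
  have hmem : ∀ i, w i ∈ AddSubgroup.closure (Set.range w) := fun i => AddSubgroup.subset_closure ⟨i, rfl⟩
  obtain ⟨⟨F, hF, hFf⟩, -⟩ := id hf
  choose m hm hper using fun i => lsec_period hfin hf (hmem i)
  have h0E : ∀ z, (LE N).symm (F z) ≠ 0 := fun z => (hF.2.1 z).1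
  have h0 : ∀ z, F z ≠ 0 := fun z h => h0E z (by rw [h, map_zero])
  have hind : LinearIndependent ℝ ![(m 0 : ℂ) * w 0, (m 1 : ℂ) * w 1] := by
    rw [LinearIndependent.pair_iff]
    intro a b hab
    have hww : LinearIndependent ℝ ![w 0, w 1] := by
      have h2 : ![w 0, w 1] = w := by
        funext i
        fin_cases i <;> rfl
      rw [h2]
      exact hw
    have h1 := LinearIndependent.pair_iff.1 hww (a * m 0) (b * m 1) (by
        simp only [Complex.real_smul] at hab ⊢
        push_cast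
        linear_combination hab)
    have hm0 : (m 0 : ℝ) ≠ 0 := by exact_mod_cast (by have := hm 0; omega : m 0 ≠ 0)
    have hm1 : (m 1 : ℝ) ≠ 0 := by exact_mod_cast (by have := hm 1; omega : m 1 ≠ 0)
    exact ⟨(mul_eq_zero.1 h1.1).resolve_right hm0, (mul_eq_zero.1 h1.2).resolve_right hm1⟩
  have hperF : ∀ i z, pr (F (z + (m i : ℂ) * w i)) = pr (F z) := by
    intro i z
    rw [hFf, hFf]
    exact hper i z
  obtain ⟨L, hL⟩ := fs_bound_of_periods hF.1 h0 hind (by
    intro i z
    fin_cases i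
    · exact hperF 0 z
    · exact hperF 1 z)
  have hord := ordTwo_symm (ordTwo_of_fs hF.1 h0 hL)
  have hd : Differentiable ℂ fun z => (LE N).symm (F z) := (LE N).symm.differentiable.comp hF.1
  have hP : ∀ i, IsPeriod (fun z => (LE N).symm (F z)) ((m i : ℂ) * w i) := by
    intro i z
    obtain ⟨c, hc, he⟩ := (pr_eq_iff (h0 _) (h0 _)).1 (hperF i z)
    refine ⟨c, hc, ?_⟩
    show (LE N).symm (F (z + (m i : ℂ) * w i)) = c • (LE N).symm (F z)
    rw [he, map_smul]
  obtain ⟨Q, d, hQ, hQP, hQF⟩ := exists_form_of_periodic hz hd h0E hord (fun z Q hQ => (hF.2.1 z).2 Q hQ) hind (hP 0) (hP 1)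
  refine ⟨Q, d, hQ, hQP, fun z x hx hxz => ?_⟩
  have hx0 : x ≠ 0 := fun h => hx (by rw [h, map_zero])
  rw [← hFf] at hxz
  obtain ⟨c, hc, he⟩ := (pr_eq_iff hx0 (h0 z)).1 hxz
  rw [he, map_smul, Pool.Agent.H17EF.eval_smul_form hQ, hQF z, mul_zero]

end Pool.Agent.H19E
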