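import Pool.Agent.H18.LU.Bas
import Pool.Agent.H18.LU.Base
import Pool.Agent.H17L.StartLA
import Pool.Agent.H17L.ResE
import Pool.Agent.H17EF.MainE

/-!
# H19E LimC: the data of the fibration off the bad fibres
-/

set_option autoImplicit false

open Topology Filter MvPolynomial Metric

noncomputable section

namespace Pool.Agent.H19E

open Pool.Agent.H17 (PN VanishesAt HolomorphicInto ZariskiClosedIn)
open Pool.Agent.H62.FC (Homog)
open Pool.Agent.H62.EF (MN pr Lat TorusMap Sec)
open Pool.Agent.H62.EL (BadSet)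
open Pool.Agent.H14.PP (IsCone)
open Pool.Agent.H13.SM (cone)
open Pool.Agent.H17BP (Surface)
open Pool.Agent.H36.BP (EN fs wd isCone_transport germ_transport)
open Pool.Agent.H17EF (projVar IsHolomorphicMap coneE uE LE torusMap)
open Pool.Agent.H17N (FibB)
open Pool.Agent.H17L (CurveD cnD TrV trv_hor)
open Pool.Agent.H18.LU (LFib OCone Dsc Nb part HorAt nb_add isClosed_nb)

variable {N : ℕ} {X : Set (EN N)} {Λ : AddSubgroup ℂ} {u : EN N → ℂ}

/-- the part of a closed cone over a closed part of the base is closed -/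
theorem isClosed_part (hX : IsCone X) (hu : TorusMap X Λ u) (hΛ : Dsc Λ) (R : ℝ) : IsClosed (insert 0 (part X Λ u R)) := by
  rw [← closure_subset_iff_isClosed]
  intro x hx
  by_cases hx0 : x = 0
  · rw [hx0]
    exact Set.mem_insert _ _
  refine Set.mem_insert_of_mem _ ?_
  have hxX : x ∈ X := by
    have h1 : x ∈ closure (insert 0 X) := closure_mono (Set.insert_subset_insert fun y hy => hy.1) hx
    rw [hX.closed.closure_eq] at h1
    exact h1.resolve_left hx0
  refine ⟨hxX, ?_⟩
  obtain ⟨v, hv, hvu⟩ := hu.loc x hxX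
  have h1 : v x ∈ Nb Λ R := by
    by_contra hcon
    have hev : ∀ᶠ y in 𝓝 x, v y ∉ Nb Λ R := hv.continuousAt.eventually ((isClosed_nb hΛ R).isOpen_compl.mem_nhds hcon)
    have hne : ∀ᶠ y in 𝓝 x, y ≠ 0 := isOpen_compl_singleton.mem_nhds hx0
    obtain ⟨y, hy, hy1, hy2, hy3⟩ := ((mem_closure_iff_frequently.1 hx).and_eventually (hev.and (hvu.and hne))).exists
    rcases hy with hy | hy
    · exact hy3 hy
    · refine hy1 ?_
      have h2 := hy2 hy.1
      have h3 : v y = u y + -(u y - v y) := by ring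
      rw [h3]
      exact (nb_add (Λ.neg_mem h2)).2 hy.2
  have h2 := hvu.self_of_nhds hxX
  have h3 : u x = v x + (u x - v x) := by ring
  rw [h3]
  exact (nb_add h2).2 h1

theorem lfib_of {P : Ideal (MvPolynomial (Fin (N + 1)) ℂ)} (hP : Homog P) (hS : Surface (cone P)) (hΛ : Lat Λ) {u : PN N → ℂ ⧸ Λ}
    (hu : IsHolomorphicMap (projVar P) Λ u) {D : Set (PN N)} (hD : CurveD (cone P) (cnD D) Λ (fun x => uE Λ u (LE N x)))
    {B : Set ℂ} {δ : ℝ} {c₀ : ℂ} (hbad : BadSet {b | b + c₀ ∈ B} Λ δ) (h0 : ∀ b ∈ {b | b + c₀ ∈ B}, 4 * δ ≤ ‖b‖)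
    (hgood : ∀ x ∈ cnD D, (∀ b ∈ B, uE Λ u (LE N x) - b ∉ Λ) → TrV (cone P) (cnD D) Λ (fun x => uE Λ u (LE N x)) x)
    (hfib : FibB (cone P \ cnD D) Λ (fun x => uE Λ u (LE N x)) B) :
    LFib (coneE P) ((LE N).symm ⁻¹' cnD D) Λ Λ (fun x => uE Λ u x - c₀) {b | b + c₀ ∈ B} δ := by
  have hcone := isCone_transport (LE N) hS
  have htor : TorusMap (coneE P) Λ (fun x => uE Λ u x - c₀) := by
    have h1 := torusMap hP hu
    constructor
    · intro x hx c hc
      have h2 := h1.smul x hx c hc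
      show uE Λ u (c • x) - c₀ - (uE Λ u x - c₀) ∈ Λ
      rwa [sub_sub_sub_cancel_right]
    · intro x hx
      obtain ⟨v, hv, hv'⟩ := h1.loc x hx
      refine ⟨fun y => v y - c₀, hv.sub analyticAt_const, ?_⟩
      filter_upwards [hv'] with y hy hyX
      show uE Λ u y - c₀ - (v y - c₀) ∈ Λ
      rw [sub_sub_sub_cancel_right]
      exact hy hyX
  have hLE : ∀ x : EN N, (LE N) ((LE N).symm x) = x := fun x => (LE N).apply_symm_apply x
  exact
  { cone := hcone.ocone
    closed := isClosed_part hcone htor hΛ.dsc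
    charts := Pool.Agent.H17EF.charts hS
    tor := htor
    dsc := hΛ.dsc
    le := le_rfl
    cof := ⟨1, one_pos, fun l hl => ⟨l, hl, by simp⟩⟩
    bad := hbad
    zero := h0
    D_sub := fun x hx => hD.sub hx
    D_smul := fun x hx c hc => by
      show (LE N).symm (c • x) ∈ cnD D
      rw [map_smul]
      exact hD.smul _ hx c hc
    D_closed := fun x hx hxD => (LE N).symm.continuous.continuousAt.eventually (hD.closed _ hx hxD)
    hor := by
      intro x hx hxb
      have h1 : ∀ b ∈ B, uE Λ u (LE N ((LE N).symm x)) - b ∉ Λ := by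
        intro b hb hmem
        rw [hLE] at hmem
        refine hxb (b - c₀) ?_ ?_
        · show b - c₀ + c₀ ∈ B
          rwa [sub_add_cancel]
        · show uE Λ u x - c₀ - (b - c₀) ∈ Λ
          rwa [sub_sub_sub_cancel_right]
      obtain ⟨σ, τ, hc, hσ0, hA, hσu⟩ := trv_hor (hgood _ hx h1)
      refine ⟨fun p => LE N (σ p), fun y => τ ((LE N).symm y), germ_transport (LE N) hc, ?_, ?_, ?_⟩
      · show LE N (σ 0) = x
        rw [hσ0, hLE]
      · filter_upwards [hσu] with p hp
        show uE Λ u (LE N (σ p)) - c₀ - (uE Λ u x - c₀ + p.1 ^ 1) ∈ Λ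
        rw [hLE] at hp
        have h2 : uE Λ u (LE N (σ p)) - c₀ - (uE Λ u x - c₀ + p.1 ^ 1) = uE Λ u (LE N (σ p)) - (uE Λ u x + p.1) := by ring
        rw [h2]
        exact hp
      · filter_upwards [hA] with p hp
        show (LE N).symm (LE N (σ p)) ∈ cnD D ↔ p.2 = 0
        rw [ContinuousLinearEquiv.symm_apply_apply]
        exact hp
    fib := by
      intro F hF hFX hFu hne
      obtain ⟨b, hb, hb'⟩ := hfib (fun z => (LE N).symm (F z)) (fun z => by
        refine ⟨fun z => (LE N).symm (F z), (((LE N).symm : EN N →L[ℂ] (Fin (N + 1) → ℂ)).analyticAt _).comp (hF.analyticAt z), ?_,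
          Eventually.of_forall fun w => ⟨1, one_ne_zero, (one_smul _ _).symm⟩⟩
        exact (hFX z).1.1) (fun z => ⟨(hFX z).1, (hFX z).2⟩) (fun z w => by
          show uE Λ u (LE N ((LE N).symm (F z))) - uE Λ u (LE N ((LE N).symm (F w))) ∈ Λ
          rw [hLE, hLE]
          have h1 := hFu z w
          rwa [sub_sub_sub_cancel_right] at h1) (by
        obtain ⟨z, w, hzw⟩ := hne
        refine ⟨z, w, ?_⟩
        rintro ⟨c, -, hc⟩
        apply hzw c
        have h1 := congrArg (LE N) hc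
        rwa [map_smul, hLE, hLE] at h1)
      refine ⟨b - c₀, ?_, ?_⟩
      · show b - c₀ + c₀ ∈ B
        rwa [sub_add_cancel]
      · show uE Λ u (F 0) - c₀ - (b - c₀) ∈ Λ
        rw [sub_sub_sub_cancel_right]
        have h2 : uE Λ u (LE N ((LE N).symm (F 0))) - b ∈ Λ := hb'
        rwa [hLE] at h2 }

end Pool.Agent.H19E
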