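import Pool.Agent.H19E.LimA
import Pool.Agent.H19E.LimB
import Pool.Agent.H19E.LimC
import Pool.Agent.H17L.BadL
import Pool.Agent.H17N.FibN
import Pool.Agent.H17N.MainN
import Pool.Agent.H36.LB.Final

/-!
# H19E LimE: limits of discs in an open surface over an elliptic curve are degenerate
-/

set_option autoImplicit false

open Topology Filter MvPolynomial Metric

noncomputable section

namespace Pool.Agent.H19E

open Pool.Agent.H17 (PN VanishesAt HolomorphicInto ZariskiClosedIn)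
open Pool.Agent.H62.FC (Homog)
open Pool.Agent.H62.EF (MN pr Lat TorusMap Sec pr_eq_iff)
open Pool.Agent.H62.EL (BadSet Gd gd_notMem)
open Pool.Agent.H14.PP (IsCone)
open Pool.Agent.H13.SM (cone conTan)
open Pool.Agent.H13.OT (OrderTwo holomorphicInto_mk mk_eq_of_pr pr_of_mk_eq)
open Pool.Agent.H17BP (Surface HolP Pr)
open Pool.Agent.H17LG.Variety (FunField)
open Pool.Agent.H36.BP (EN fs wd isCone_transport germ_transport)
open Pool.Agent.H36.LB (ConvPN IsLimitPN LimModPN)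
open Pool.Agent.H17G (image_finite exists_delta)
open Pool.Agent.H17EF (projVar IsHolomorphicMap coneE uE LE torusMap prP mk_symm LE_ne_zero mk_mem_projVar uE_eq sub_mem_iff exists_affine exists_prod
  lat_of_basis)
open Pool.Agent.H17N (FibB NowhereConstant NonConst fibre_formN)
open Pool.Agent.H17L (CurveD cnD TrV exists_badL tmap_start nonconst_start)
open Pool.Agent.H18.LU (LFib LSec LCur lcur_fibre lcur_aff)

variable {N : ℕ}

/-- the representatives of finitely many classes are isolated -/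
theorem isolated_of_finite {Λ : AddSubgroup ℂ} (hΛ : Lat Λ) {B₀ : Set (ℂ ⧸ Λ)} (hB₀ : B₀.Finite) (c : ℂ) :
    ∃ ε : ℝ, 0 < ε ∧ ∀ c' : ℂ, (c' : ℂ ⧸ Λ) ∈ B₀ → ‖c' - c‖ < ε → c' = c := by
  obtain ⟨δ, hδ, hd⟩ := hΛ.discrete
  have hone : ∀ β : ℂ ⧸ Λ, ∃ ε : ℝ, 0 < ε ∧ ∀ c' : ℂ, (c' : ℂ ⧸ Λ) = β → ‖c' - c‖ < ε → c' = c := by
    intro β
    by_cases h : ∃ c₁ : ℂ, c₁ ≠ c ∧ (c₁ : ℂ ⧸ Λ) = β ∧ ‖c₁ - c‖ < δ / 2
    · obtain ⟨c₁, h1, h2, h3⟩ := h
      refine ⟨‖c₁ - c‖, norm_pos_iff.2 (sub_ne_zero.2 h1), fun c' hc' hlt => ?_⟩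
      exfalso
      have h4 : c' - c₁ ∈ Λ := sub_mem_iff.2 (hc'.trans h2.symm)
      have h5 : ‖c' - c₁‖ < δ := by
        have h6 : c' - c₁ = (c' - c) - (c₁ - c) := by ring
        rw [h6]
        have h7 := norm_sub_le (c' - c) (c₁ - c)
        linarith
      have h6 : c' = c₁ := sub_eq_zero.1 (hd _ h4 h5)
      rw [h6] at hlt
      exact lt_irrefl _ hlt
    · push Not at h
      refine ⟨δ / 2, by positivity, fun c' hc' hlt => ?_⟩
      by_contra hne
      exact absurd hlt (not_lt.2 (h c' hne hc'))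
  induction B₀, hB₀ using Set.Finite.induction_on with
  | empty => exact ⟨1, one_pos, fun c' hc' => absurd hc' (Set.notMem_empty _)⟩
  | @insert a s _ _ ih =>
    obtain ⟨ε, hε, h⟩ := ih
    obtain ⟨ε', hε', h'⟩ := hone a
    refine ⟨min ε ε', lt_min hε hε', fun c' hc' hlt => ?_⟩
    rcases hc' with hc' | hc'
    · exact h' c' hc' (hlt.trans_le (min_le_right _ _))
    · exact h c' hc' (hlt.trans_le (min_le_left _ _))

variable {P : Ideal (MvPolynomial (Fin (N + 1)) ℂ)}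

/-- the entire curves in the fibres -/
theorem fibB_of (hP : Homog P) {Λ : AddSubgroup ℂ} {u : PN N → ℂ ⧸ Λ} {D : Set (PN N)} {B₀ : Set (ℂ ⧸ Λ)}
    (hfib : ∀ f : ℂ → PN N, HolomorphicInto f Set.univ → (∀ z, f z ∈ projVar P \ D) → (∀ z w, u (f z) = u (f w)) → u (f 0) ∉ B₀ → ∀ z w, f z = f w) :
    FibB (cone P \ cnD D) Λ (fun x => uE Λ u (LE N x)) {b : ℂ | (b : ℂ ⧸ Λ) ∈ B₀} := by
  intro f hf hfX hfu ⟨z₁, w₁, hne⟩
  have hf0 : ∀ z, f z ≠ 0 := fun z => (hfX z).1.1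
  have hval : ∀ z, ((uE Λ u (LE N (f z)) : ℂ) : ℂ ⧸ Λ) = u (Projectivization.mk ℂ (f z) (hf0 z)) := by
    intro z
    have h1 : (LE N).symm (LE N (f z)) = f z := (LE N).symm_apply_apply _
    have h2 : (LE N).symm (LE N (f z)) ≠ 0 := by
      rw [h1]
      exact hf0 z
    rw [uE_eq Λ u h2]
    congr 1
  refine ⟨uE Λ u (LE N (f 0)), ?_, ?_⟩
  · show ((uE Λ u (LE N (f 0)) : ℂ) : ℂ ⧸ Λ) ∈ B₀
    rw [hval]
    by_contra hcon
    have h1 := hfib (fun z => Projectivization.mk ℂ (f z) (hf0 z)) (holomorphicInto_mk hf0 hf)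
      (fun z => ⟨(mk_mem_projVar hP (hf0 z)).2 (hfX z).1, fun h => (hfX z).2 ⟨hf0 z, h⟩⟩)
      (fun z w => by
        rw [← hval, ← hval]
        exact sub_mem_iff.1 (hfu z w)) hcon z₁ w₁
    exact hne (pr_of_mk_eq _ _ h1)
  · show uE Λ u (LE N (f 0)) - uE Λ u (LE N (f 0)) ∈ Λ
    rw [sub_self]
    exact Λ.zero_mem

/-- **Limits of discs in the open surface are degenerate.** -/
theorem limit_form [P.IsPrime] {z : Fin 2 → FunField P} (hP : Homog P) (hz : IsTranscendenceBasis ℂ z)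
    (hsm : ∀ y : Fin (N + 1) → ℂ, y ≠ 0 → (∀ Q ∈ P, eval y Q = 0) → Module.finrank ℂ (conTan P y) ≤ 3)
    {w : Fin 2 → ℂ} (hw : LinearIndependent ℝ w) {u : PN N → ℂ ⧸ AddSubgroup.closure (Set.range w)}
    (hu : IsHolomorphicMap (projVar P) (AddSubgroup.closure (Set.range w)) u) (hnon : NowhereConstant (projVar P) u) {D : Set (PN N)}
    (hDc : CurveD (cone P) (cnD D) (AddSubgroup.closure (Set.range w)) (fun x => uE (AddSubgroup.closure (Set.range w)) u (LE N x)))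
    {B₀ : Set (ℂ ⧸ AddSubgroup.closure (Set.range w))} (hB₀ : B₀.Finite)
    (hfib : ∀ f : ℂ → PN N, HolomorphicInto f Set.univ → (∀ z, f z ∈ projVar P \ D) → (∀ z w, u (f z) = u (f w)) → u (f 0) ∉ B₀ → ∀ z w, f z = f w)
    (hfin : (LSec (coneE P) ((LE N).symm ⁻¹' cnD D) (AddSubgroup.closure (Set.range w)) (uE (AddSubgroup.closure (Set.range w)) u)).Finite) :
    ∃ (R : MvPolynomial (Fin (N + 1)) ℂ) (n : ℕ), R.IsHomogeneous n ∧ R ∉ P ∧ ∀ (l : Filter ℕ) (F : ℕ → ℂ → PN N) (f : ℂ → PN N),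
      IsLimitPN (projVar P \ D) l F f → OrderTwo f → (∃ z w, f z ≠ f w) → ∀ z, VanishesAt R (f z) := by
  have hΛ := lat_of_basis hw
  have hS : Surface (cone P) := Pool.Agent.H13.SM.surface_cone hP hz fun y hy => hsm y hy.1 hy.2
  generalize hΛeq : AddSubgroup.closure (Set.range w) = Λ at *
  obtain ⟨δ₁, hδ₁, hsep₁⟩ := Pool.Agent.EG.separated hΛ (B := {b : ℂ | (b : ℂ ⧸ Λ) ∈ B₀}) (by
    intro b hb l hl
    show ((b + l : ℂ) : ℂ ⧸ Λ) ∈ B₀
    have h1 : ((b + l : ℂ) : ℂ ⧸ Λ) = (b : ℂ ⧸ Λ) := sub_mem_iff.1 (by rwa [add_sub_cancel_left])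
    rw [h1]
    exact hb) (fun c => isolated_of_finite hΛ hB₀ c)
  obtain ⟨B, hBB, hinv, ⟨δ₀, hδ₀, hsep⟩, -, hgood⟩ := exists_badL hΛ hS (tmap_start hP hu) (nonconst_start hP hS hΛ hu hnon) hDc (B₀ := {b : ℂ | (b : ℂ ⧸ Λ) ∈ B₀}) (by
    intro b hb l hl
    show ((b + l : ℂ) : ℂ ⧸ Λ) ∈ B₀
    have h1 : ((b + l : ℂ) : ℂ ⧸ Λ) = (b : ℂ ⧸ Λ) := sub_mem_iff.1 (by rwa [add_sub_cancel_left])
    rw [h1]
    exact hb) hδ₁ hsep₁
  have hfibB : FibB (cone P \ cnD D) Λ (fun x => uE Λ u (LE N x)) B := by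
    intro f h1 h2 h3 h4
    obtain ⟨b, hb, hb'⟩ := fibB_of hP hfib f h1 h2 h3 h4
    exact ⟨b, hBB hb, hb'⟩
  -- a value which is not bad
  obtain ⟨c₀, hc₀⟩ : ∃ c₀, c₀ ∉ B := by
    have hbs : BadSet B Λ (δ₀ / 8) := ⟨by positivity, hinv, fun b hb b' hb' hne => by
      have := hsep b hb b' hb' hne
      linarith⟩
    obtain ⟨c, hc⟩ := hbs.nonempty
    exact ⟨c, gd_notMem (by positivity) hc⟩
  obtain ⟨δ, hbad, hδ⟩ := exists_delta (Λ := Λ) (B := {b | b + c₀ ∈ B}) hδ₀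
    (fun b hb l hl => by
      show b + l + c₀ ∈ B
      rw [add_right_comm]
      exact hinv _ hb l hl)
    (fun b hb b' hb' hne => by
      have := hsep _ hb _ hb' fun h => hne (add_right_cancel h)
      rwa [add_sub_add_right_eq_sub] at this)
    (by
      show ¬ (0 + c₀ ∈ B)
      rwa [zero_add])
  have E := lfib_of hP hS hΛ hu hDc hbad hδ hgood hfibB
  -- the bad fibres
  obtain ⟨R, n, hR, hRP, hRx⟩ := exists_prod (P := P) (image_finite hΛ hinv hδ₀ hsep) (A := fun β => {x : PN N | x ∈ projVar P ∧ u x = β}) (by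
    rintro _ ⟨b, hb, rfl⟩
    obtain ⟨Q, d, hQ, hQP, hQx⟩ := fibre_formN hP hz hS hΛ hu hnon b
    exact ⟨Q, d, hQ, hQP, fun x hx => hQx x hx.1 hx.2⟩)
  -- the limit sections
  obtain ⟨R', n', hR', hRP', hRx'⟩ := exists_prod (P := P) hfin (A := fun h => {x : PN N | ∃ z, prP x = h z}) (by
    intro h hh
    subst hΛeq
    obtain ⟨Q, d, hQ, hQP, hQx⟩ := lsec_form hz hw hfin hh
    refine ⟨Q, d, hQ, hQP, ?_⟩
    rintro x ⟨z, hxz⟩
    have h1 : (LE N).symm (LE N x.rep) = x.rep := (LE N).symm_apply_apply _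
    have h2 := hQx z (LE N x.rep) (by rw [h1]; exact x.rep_nonzero) hxz
    rw [h1] at h2
    exact h2)
  refine ⟨R * R', n + n', hR.mul hR', fun h => ((inferInstance : P.IsPrime).mem_or_mem h).elim hRP hRP', ?_⟩
  intro l F f hf hford hfn z
  have hmul : ∀ x : PN N, VanishesAt R x ∨ VanishesAt R' x → VanishesAt (R * R') x := by
    intro x h
    unfold VanishesAt at h ⊢
    rw [map_mul]
    rcases h with h | h
    · rw [h, zero_mul]
    · rw [h, mul_zero]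
  obtain ⟨H, hH, hHf⟩ := lcur_of_limitPN hP (U := projVar P \ D) (DE := (LE N).symm ⁻¹' cnD D) Set.diff_subset
    (fun x h hx hxD => by
      obtain ⟨h', hD'⟩ := hxD
      exact hx.2 hD') hf
  have hfX : ∀ z, f z ∈ projVar P := fun z => limit_mem_projVar hP Set.diff_subset hf z
  have hval : ∀ z, ((uE Λ u (H z) : ℂ) : ℂ ⧸ Λ) = u (f z) := fun z => by
    obtain ⟨h, h'⟩ := hHf z
    rw [uE_eq Λ u h, ← h']
  have hprf : ∀ z, prP (f z) = pr (H z) := fun z => by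
    obtain ⟨h, h'⟩ := hHf z
    rw [h', mk_symm h]
  rcases exists_affine hP hz hsm hΛ hu hf.hol hford hfX with hconst | ⟨g, hg, a, b, ha, hgf⟩
  · -- `u` is constant on the limit
    refine hmul _ (Or.inl ?_)
    have hc : ∀ z, uE Λ u (H z) - uE Λ u (H 0) ∈ Λ := fun z => sub_mem_iff.2 (by rw [hval, hval]; exact hconst z 0)
    have hcB : uE Λ u (H 0) ∈ B := by
      by_contra hcon
      have h1 : ∀ z w, pr (H z) = pr (H w) := fun z w => lcur_fibre E hH (c := uE Λ u (H 0) - c₀)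
        (fun z => by
          show uE Λ u (H z) - c₀ - (uE Λ u (H 0) - c₀) ∈ Λ
          rw [sub_sub_sub_cancel_right]
          exact hc z) (fun h => hcon (by
            have h2 : uE Λ u (H 0) - c₀ + c₀ ∈ B := h
            rwa [sub_add_cancel] at h2)) z w
      obtain ⟨z₁, w₁, hne⟩ := hfn
      apply hne
      apply Pool.Agent.H17EF.prP_injective
      rw [hprf, hprf]
      exact h1 z₁ w₁
    exact hRx _ (Set.mem_biUnion ⟨_, hcB, rfl⟩ ⟨hfX z, (hconst z 0).trans (hval 0).symm⟩)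
  · -- the limit is a section
    refine hmul _ (Or.inr ?_)
    have h1 : ∀ z, uE Λ u (H z) - (a * z + b) ∈ Λ := by
      intro z
      rw [sub_mem_iff, hval, hgf z]
      exact hg.2.2 (a * z + b)
    have hcone := isCone_transport (LE N) hS
    have h2 := lcur_aff hcone.ocone (fun R => isClosed_part hcone (torusMap hP hu) hΛ.dsc R) (torusMap hP hu) hΛ.dsc E.D_closed hH ha h1
    refine hRx' _ (Set.mem_biUnion h2 ⟨a * z + b, ?_⟩)
    rw [hprf]
    show pr (H z) = pr (H ((a * z + b - b) / a))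
    rw [add_sub_cancel_right, mul_div_cancel_left₀ z ha]

end Pool.Agent.H19E
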