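import Pool.Agent.H19E.Tr4
import Pool.Agent.H19Q.Induct

/-!
# H19E Main4: the theorem for the surfaces of the class `OverElliptic`
-/

set_option autoImplicit false

open MvPolynomial

noncomputable section

namespace Pool.Agent.H19E.V4

open Pool.Agent.H17 (PN VanishesAt ZariskiClosedIn)
open Pool.Agent.H62.SA (locVar OnBd)
open Pool.Agent.H17EF (projVar)
open Pool.Agent.H7.Bir (GGLOpen)
open Pool.Agent.H62.Et (GGLK)
open Pool.Agent.H17G (excG)
open Pool.Agent.H19Q (QSurface LogClass)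

/-- **The conjecture for the surfaces of the class.** -/
theorem OverElliptic.main {U : QSurface} (h : OverElliptic U) (hgt : U.LogGeneralType) : ∃ Ξ, GGLOpen U.P U.G Ξ :=
  h.tr.main (fun _ h => h) hgt

theorem Projective.gt {U : QSurface} (hU : Projective U) (hgt : U.LogGeneralType) : (proj U).LogGeneralType := by
  have hne : (projVar U.P).Nonempty := U.nonempty.mono fun _ hx => hx.1
  have hm := isModification_id hU.locVar_eq hne
  exact Pool.Agent.H7.Qup.logGT_up (P := U.P) (P' := U.P) (G := U.G) (G' := fun _ : Fin 1 => 1)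
    (hm.toIsRegularOnto.isDominantMap hm.inv U.homog U.form U.nonempty) U.homog U.form (fun _ => ⟨0, isHomogeneous_one _ _⟩)
    (by rw [← hU.locVar_eq]; exact U.nonempty) U.dim U.dim hgt

/-- smooth projective surfaces of the class -/
theorem OverElliptic.gglk {U : QSurface} (h : OverElliptic U) (hgt : U.LogGeneralType) (hU : Projective U) (hs : SmoothOn U (cl U)) :
    GGLK U.P := by
  have h1 : LogClass _ (proj U) := logClass_proj hU h.tr
  exact h1.gglk (fun _ h => h) (hU.gt hgt) ⟨(0 : Fin 1), rfl⟩ fun y hy hS => hs.finrank hy hS.1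

/-- the exceptional set of a smooth projective surface of the class -/
theorem OverElliptic.exc {U : QSurface} (h : OverElliptic U) (hgt : U.LogGeneralType) (hU : Projective U) (hs : SmoothOn U (cl U)) :
    GGLOpen U.P U.G (excG U.P) := by
  obtain ⟨h1, -⟩ := h.gglk hgt hU hs
  have h2 := Pool.Agent.H7.Bir.open_four U.homog U.form U.nonempty h1
  have h3 : excG U.P ∩ locVar U.P U.G = excG U.P := by
    obtain ⟨S, -, hS⟩ := h1.closed
    refine Set.inter_eq_left.2 fun x hx => ?_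
    rw [hS] at hx
    exact hU hx.1
  rw [h3] at h2
  exact h2

/-- **Main theorem.** -/
theorem OverElliptic.final {U : QSurface} (h : OverElliptic U) (hgt : U.LogGeneralType) :
    ∃ Ξ : Set (PN U.N), GGLOpen U.P U.G Ξ ∧ (Projective U → SmoothOn U (cl U) → Ξ = excG U.P) ∧
      (IsBasic U ∨ (Projective U ∧ SmoothOn U (cl U)) → ∃ (Q : MvPolynomial (Fin (U.N + 1)) ℂ) (D : ℕ), Q.IsHomogeneous D ∧
        (∃ x ∈ pts U, ¬ VanishesAt Q x) ∧ (∀ x ∈ Ξ, VanishesAt Q x) ∧ Pool.Agent.H14.KB.KobayashiHyperbolicModulo (pts U) Q D) := by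
  by_cases hp : Projective U ∧ SmoothOn U (cl U)
  · refine ⟨excG U.P, h.exc hgt hp.1 hp.2, fun _ _ => rfl, fun _ => ?_⟩
    obtain ⟨-, Q, D, hQ, hQx, hQΞ, hkob⟩ := h.gglk hgt hp.1 hp.2
    have h1 : pts U = projVar U.P := Set.Subset.antisymm (fun x hx => hx.1) hp.1
    rw [h1]
    exact ⟨Q, D, hQ, hQx, hQΞ, hkob⟩
  · by_cases hb : IsBasic U
    · obtain ⟨Ξ, h1, Q, D, h2, h3, h4, h5⟩ := hb.good hgt
      exact ⟨Ξ, h1, fun h6 h7 => absurd ⟨h6, h7⟩ hp, fun _ => ⟨Q, D, h2, h3, fun x hx => ((h4 x).1 hx).2, h5⟩⟩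
    · obtain ⟨Ξ, h1⟩ := h.main hgt
      exact ⟨Ξ, h1, fun h6 h7 => absurd ⟨h6, h7⟩ hp, fun h6 => absurd h6 (not_or.2 ⟨hb, hp⟩)⟩

end Pool.Agent.H19E.V4
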