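import Pool.Agent.H19E.Defs4
import Pool.Agent.H19E.ClassE

/-!
# H19E Tr4: the class `OverElliptic` is contained in the class `LogClass`
-/

set_option autoImplicit false

open Topology Filter MvPolynomial

noncomputable section

namespace Pool.Agent.H19E.V4

open Pool.Agent.H17 (PN VanishesAt ZariskiClosedIn HolomorphicInto)
open Pool.Agent.H62.SA (locVar)
open Pool.Agent.H62.FC (Homog)
open Pool.Agent.H13.SM (conTan cone)
open Pool.Agent.H36.BP (EN)
open Pool.Agent.H14.PP (Tan)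
open Pool.Agent.H92.TH (SymDiff)
open Pool.Agent.H17EF (projVar IsHolomorphicMap coneE LE mem_coneE mk_mem_projVar)
open Pool.Agent.H17G (IsTangent isTangent_iff)
open Pool.Agent.H19Q (QSurface LogClass)
open Pool.Agent.H7.Bir (GGLOpen)

variable {N M r s s' : ℕ}

/-- regular maps are given by forms at the points -/
theorem IsRegular.reg {S : Set (PN M)} {p : PN M → PN N} (h : IsRegular S p) {y : PN M} (hy : y ∈ S) :
    ∃ (D : ℕ) (γ : Fin (N + 1) → MvPolynomial (Fin (M + 1)) ℂ), (∀ i, (γ i).IsHomogeneous D) ∧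
      Pool.Agent.H7.Bir.vals γ y.rep ≠ 0 ∧ ∀ y' ∈ S, Pool.Agent.H7.Bir.vals γ y'.rep ≠ 0 → p y' = Pool.Agent.H7.Bir.rmap γ y' := by
  obtain ⟨γ, ⟨⟨D, hD⟩, h1⟩, h2⟩ := h y.rep y hy (rep_rep y)
  exact ⟨D, γ, hD, h2, fun y' hy' h3 => (rmap_of_rep (h1 y'.rep y' hy' (rep_rep y') h3)).symm⟩

theorem IsDominant.tr {U' U : QSurface} {p : PN U'.N → PN U.N} (h : IsDominant U' U p) :
    Pool.Agent.H7.Qup.IsDominantMap U.P U'.P U.G U'.G p :=
  ⟨h.maps, fun _ hy => h.regular.reg hy, h.dense⟩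

theorem IsProper.tr {U' U : QSurface} {p : PN U'.N → PN U.N} (h : IsProper U' U p) :
    Pool.Agent.H19Q.IsRegularOnto U.P U'.P p :=
  ⟨h.maps, h.surj, fun _ hy => h.regular.reg hy⟩

theorem IsModification.tr {U' U : QSurface} {p : PN U'.N → PN U.N} (h : IsModification U' U p) :
    Pool.Agent.H19Q.IsModification U.P U'.P U.G U'.G p := by
  obtain ⟨D, α, hα, ⟨x, q, hq, ⟨hx, rfl⟩, hne⟩, h1⟩ := h.inverse
  refine ⟨h.toIsProper.tr, h.inv, D, α, hα, ⟨_, hq, ?_⟩, fun y hy h2 => rmap_of_rep (h1 _ y hy (rep_rep _) h2)⟩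
  obtain ⟨a, ha, hrep⟩ := Pool.Agent.H36.BP.rep_mk hx
  rw [hrep, Pool.Agent.H7.Bir.vals_smul hα]
  exact smul_ne_zero (pow_ne_zero _ ha) hne

theorem SmoothOn.pts {U : QSurface} (h : SmoothOn U (pts U)) : U.Smooth := fun _ hy hS => h.finrank hy hS

theorem IsUnramified.tr {U' U : QSurface} {p : PN U'.N → PN U.N} (h : IsUnramified U' U p) :
    Pool.Agent.H62.Qe.IsUnramifiedOver U.P U'.P U.G U'.G p := by
  refine ⟨h.maps, h.surj, h.inv, fun y hy hyX => ?_⟩
  obtain ⟨γ, h1, h2⟩ := h.regular y _ hyX (rep_mk hy)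
  obtain ⟨D, hD⟩ := h1.1
  refine ⟨D, γ, hD, h2, fun y' hy' h' hm => ?_, fun hU v hv c hc => ?_⟩
  · obtain ⟨_, h3⟩ := h1.2 y' _ hm (rep_mk hy') h'
    exact h3
  · exact h.immersive y _ hU (rep_mk hy) γ h1 h2 v hv c hc

/-- the projective surface `X` -/
def proj (U : QSurface) : QSurface where
  N := U.N
  P := U.P
  prime := U.prime
  homog := U.homog
  dim := U.dim
  s := 1
  G := fun _ => 1
  form := fun _ => ⟨0, isHomogeneous_one _ _⟩
  nonempty := by
    obtain ⟨x, hx, -⟩ := U.nonempty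
    refine ⟨x, hx, 0, fun h => ?_⟩
    unfold VanishesAt at h
    rw [map_one] at h
    exact one_ne_zero h

theorem locVar_one (P : Ideal (MvPolynomial (Fin (N + 1)) ℂ)) : locVar P (fun _ : Fin 1 => 1) = projVar P := by
  ext x
  refine ⟨fun hx => hx.1, fun hx => ⟨hx, 0, fun h1 => ?_⟩⟩
  unfold VanishesAt at h1
  rw [map_one] at h1
  exact one_ne_zero h1

theorem Projective.locVar_eq {U : QSurface} (h : Projective U) : locVar U.P U.G = locVar U.P (fun _ : Fin 1 => 1) := by
  rw [locVar_one]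
  exact Set.Subset.antisymm (fun x hx => hx.1) h

variable {B : QSurface → Prop}

theorem logClass_of_proj {U : QSurface} (hU : Projective U) (h : LogClass B (proj U)) : LogClass B U :=
  LogClass.modification U (proj U) id (isModification_id hU.locVar_eq (U.nonempty.mono fun _ hx => hx.1)) h

theorem logClass_proj {U : QSurface} (hU : Projective U) (h : LogClass B U) : LogClass B (proj U) :=
  LogClass.modification (proj U) U id (isModification_id hU.locVar_eq.symm (U.nonempty.mono fun _ hx => hx.1)) h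

/-- the symmetric differential in the Euclidean coordinates -/
def IsSymDiff.sym {P : Ideal (MvPolynomial (Fin (N + 1)) ℂ)} (hP : Homog P) {m : ℕ} {θ : (Fin (N + 1) → ℂ) → (Fin (N + 1) → ℂ) → ℂ}
    (h : IsSymDiff (projVar P) m θ) : SymDiff (coneE P) m where
  toFun := fun x v => θ ((LE N).symm x) ((LE N).symm v)
  add_smul := fun x hx v hv a => by
    rw [map_add, map_smul]
    exact h.horizontal _ _ ((isTangent_iff hP hx).2 hv) a
  smul := fun x hx v hv a => by
    rw [map_smul]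
    exact h.homogeneous _ _ ((isTangent_iff hP hx).2 hv) a
  scale := fun x hx v hv c hc => by
    rw [map_smul, map_smul]
    exact h.scale _ _ ((isTangent_iff hP hx).2 hv) c hc
  analytic := fun φ p w hφ hφX => by
    have h1 : AnalyticAt ℂ (fun y => (LE N).symm (φ y)) p := (((LE N).symm : EN N →L[ℂ] (Fin (N + 1) → ℂ)).analyticAt _).comp hφ
    have h2 := h.holomorphic (fun y => (LE N).symm (φ y)) p w h1 (by
      filter_upwards [hφX] with y hy
      obtain ⟨h3, h4⟩ := (mem_coneE hP).1 hy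
      exact ⟨_, h4, rep_mk h3⟩)
    refine h2.congr (Eventually.of_forall fun y => ?_)
    show θ ((LE N).symm (φ y.1)) (fderiv ℂ (fun y => (LE N).symm (φ y)) y.1 y.2) = θ ((LE N).symm (φ y.1)) ((LE N).symm (fderiv ℂ φ y.1 y.2))
    have h5 : fderiv ℂ (fun y => (LE N).symm (φ y)) y.1 = (((LE N).symm : EN N →L[ℂ] (Fin (N + 1) → ℂ))).comp (fderiv ℂ φ y.1) :=
      (LE N).symm.comp_fderiv
    rw [h5]
    rfl

theorem IsOrbifoldCover.tr {Λ : AddSubgroup ℂ} {R : ℂ ⧸ Λ → PN 1} {m : ℕ} {Φ : MvPolynomial (Fin 2) ℂ} (h : IsOrbifoldCover R m Φ) :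
    Pool.Agent.H19OL.IsOrbifoldCover R m Φ :=
  ⟨h.form, h.holomorphic, h.onto, h.equation⟩

theorem vals_pair (A : Fin 2 → MvPolynomial (Fin (N + 1)) ℂ) (x : Fin (N + 1) → ℂ) :
    vals A x = Pool.Agent.H19OL.pair (A 0) (A 1) x := by
  funext i
  fin_cases i
  · rfl
  · rfl

theorem IsOrbifoldCovering.tr {U' U : QSurface} {w : Fin 2 → ℂ} (hw : LinearIndependent ℝ w) {A : Fin 2 → MvPolynomial (Fin (U.N + 1)) ℂ}
    {R : ℂ ⧸ AddSubgroup.closure (Set.range w) → PN 1} {m : ℕ} {Φ : MvPolynomial (Fin 2) ℂ} {e : ℂ ⧸ AddSubgroup.closure (Set.range w) → PN r}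
    {ε : Fin (U'.N + 1) ≃ Fin (U.N + 1) × Fin (r + 1)} (h : IsOrbifoldCovering U' U A R m Φ e ε) (h' : LogClass B U') : LogClass B U := by
  obtain ⟨d, hd⟩ := h.forms
  obtain ⟨θ, hθ, hpull⟩ := h.differential
  refine logClass_of_proj h.projective ?_
  refine LogClass.orbifold (r := r) (proj U) (proj U') ⟨(0 : Fin 1), rfl⟩ ⟨(0 : Fin 1), rfl⟩ ?_ (A 0) (A 1) d (hd 0) (hd 1) ?_ w hw R m h.pos Φ h.cover.tr
    (hθ.sym U.homog) ?_ e h.embedding.1 h.embedding.2 ε ?_ (logClass_proj h.projective' h')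
  · intro y hy hS
    exact h.smooth.finrank hy hS.1
  · obtain ⟨i, hi⟩ := h.ne
    fin_cases i
    · exact Or.inl hi
    · exact Or.inr hi
  · intro F z hF hFX
    have h1 : AnalyticAt ℂ (fun y => (LE U.N).symm (F y)) z := (((LE U.N).symm : EN U.N →L[ℂ] (Fin (U.N + 1) → ℂ)).analyticAt _).comp hF
    have h2 := hpull (fun y => (LE U.N).symm (F y)) z h1 (by
      filter_upwards [hFX] with y hy
      obtain ⟨h3, h4⟩ := (mem_coneE U.homog).1 hy
      exact ⟨_, h4, rep_mk h3⟩)
    have h3 : HasDerivAt (fun z => (LE U.N).symm (F z)) ((LE U.N).symm (deriv F z)) z :=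
      ((LE U.N).symm : EN U.N →L[ℂ] (Fin (U.N + 1) → ℂ)).hasFDerivAt.comp_hasDerivAt z hF.differentiableAt.hasDerivAt
    rw [h3.deriv, vals_pair] at h2
    have h4 : (fun w => vals A ((LE U.N).symm (F w))) = fun w => Pool.Agent.H19OL.pair (A 0) (A 1) (F w).ofLp := by
      funext w
      exact vals_pair A _
    rw [h4] at h2
    exact h2
  · show U'.P = Pool.Agent.H19OL.fibreProduct U.P (A 0) (A 1) R e ε
    rw [h.product]
    unfold Pool.Agent.H19OL.fibreProduct
    congr 1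
    ext v
    constructor
    · rintro ⟨x, q, hq, y, c, hx, hy, hA, rfl⟩
      rw [vals_pair] at hA
      exact ⟨x, y, c, (exists_rep_iff U.homog).1 ⟨q, hq, hx⟩, hy, hA, rfl⟩
    · rintro ⟨x, y, c, hx, hy, hA, rfl⟩
      obtain ⟨q, hq, hx'⟩ := (exists_rep_iff U.homog).2 hx
      refine ⟨x, q, hq, y, c, hx', hy, ?_, rfl⟩
      rw [vals_pair]
      exact hA

/-- the surfaces with the property to be proved -/
def Good (U : QSurface) : Prop := U.LogGeneralType → ∃ Ξ, GGLOpen U.P U.G Ξ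

/-- The class `OverElliptic` is contained in the class `LogClass`. -/
theorem OverElliptic.tr {U : QSurface} (h : OverElliptic U) : LogClass Good U := by
  induction h with
  | basic U h =>
    refine LogClass.base U fun hgt => ?_
    obtain ⟨Ξ, h1, -⟩ := h.good hgt
    exact ⟨Ξ, h1⟩
  | dominant U' U p hp hgt h ih => exact LogClass.dominant U' U p hp.tr hgt ih
  | modification U' U p hp h ih => exact LogClass.modification U U' p hp.tr ih
  | unramified U' U p hp h ih => exact LogClass.unramified U U' hp.smooth.pts hp.smooth'.pts p hp.tr ih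
  | orbifold U' U r w hw A R m Φ e ε hp h ih => exact hp.tr hw ih

end Pool.Agent.H19E.V4
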